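import Mathlib

set_option autoImplicit false

namespace Pool.Agent.Helper542.RK

/-! explicit parameters (definitions only) -/

def tC (i : ℕ) : ℕ := 160 * 4 ^ i
def NC (i : ℕ) : ℕ := 2 ^ tC i
def ZC (i : ℕ) : ℕ := 2 ^ (112 * 4 ^ i)
def L0C : ℕ := 2 ^ 14 * 160 ^ 2
def LC : ℕ → ℕ
  | 0 => L0C
  | (i+1) => LC i * NC i
def KC : ℕ := 23 * L0C
def kC : ℕ := 7 * L0C
def b0C : ℕ := 2 ^ 13 * 160
def EC (i : ℕ) : ℚ := (5 / 4) ^ (4 * tC i)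
def aC (i : ℕ) : ℚ := 9 * EC i
/-- the pair `(phi i, w i)` -/
def PWC : ℕ → ℚ × ℚ
  | 0 => ((L0C : ℚ) / 16, (tC 0 : ℚ) / ((L0C : ℚ) / 16) * aC 0)
  | (i+1) =>
    ((NC i : ℚ) * EC i + (PWC i).2 * (2 * ((ZC i * LC i : ℕ) : ℚ)),
      (PWC i).2 * ((tC (i+1) : ℚ) /
        ((NC i : ℚ) * EC i + (PWC i).2 * (2 * ((ZC i * LC i : ℕ) : ℚ))) * aC (i+1)))
def phC (i : ℕ) : ℚ := (PWC i).1
def wC (i : ℕ) : ℚ := (PWC i).2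
def lamC (i : ℕ) : ℚ := (tC i : ℚ) / phC i
def fC (i : ℕ) (x : ℚ) : ℚ := (1 + x / (4 * phC i)) ^ (4 * tC i)
def gC (i : ℕ) (x : ℚ) : ℚ := lamC i * (1 + x / (4 * phC i)) ^ (4 * tC i - 1)
def typC (i : ℕ) : ℚ := 9 * (NC i : ℚ) * EC i / (ZC i : ℚ)
def G2C : ℚ := 5888 * 160
def epsC (i : ℕ) : ℚ := 1 / ((KC : ℚ) * 2 ^ (i + 10))
def gamC : ℕ → ℚ
  | 0 => 1
  | 1 => 3 / 2
  | (i+2) => gamC (i+1) * (1 + 1 / 2 ^ (i + 1 + 6))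

end Pool.Agent.Helper542.RK
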