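import Pool.Agent.Helper923.RK.ParamDef
import Pool.Agent.Helper542.RK.Defs

set_option autoImplicit false

namespace Pool.Agent.Helper542.RK

open Finset

theorem tC_pos (i : ℕ) : 0 < tC i := by unfold tC; positivity
theorem NC_pos (i : ℕ) : (0:ℚ) < NC i := by unfold NC; positivity
theorem ZC_pos (i : ℕ) : (0:ℚ) < ZC i := by unfold ZC; positivity
theorem EC_pos (i : ℕ) : 0 < EC i := by unfold EC; positivity
theorem EC_one (i : ℕ) : 1 ≤ EC i := by
  unfold EC; exact one_le_pow₀ (by norm_num)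
theorem LC_pos (i : ℕ) : 0 < LC i := by
  induction i with
  | zero => simp [LC, L0C]
  | succ i ih => simp only [LC]; exact Nat.mul_pos ih (by unfold NC; positivity)
theorem LCq_pos (i : ℕ) : (0:ℚ) < LC i := by exact_mod_cast LC_pos i

theorem lt_four_pow (i : ℕ) : i + 1 ≤ 4 ^ i := by
  have := Nat.lt_pow_self (n := i) (show 1 < 4 by norm_num)
  omega

theorem PWC_pos : ∀ i, 0 < (PWC i).1 ∧ 0 < (PWC i).2 := by
  intro i
  induction i with
  | zero =>
    simp only [PWC]
    have h1 : (0:ℚ) < L0C := by simp [L0C]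
    have h2 := EC_pos 0
    have h3 : (0:ℚ) < tC 0 := by exact_mod_cast tC_pos 0
    unfold aC
    constructor <;> positivity
  | succ i ih =>
    obtain ⟨_, h2⟩ := ih
    have h3 := NC_pos i
    have h4 := EC_pos i
    have h5 := EC_pos (i+1)
    have h6 : (0:ℚ) < tC (i+1) := by exact_mod_cast tC_pos (i+1)
    have h8 : 0 < (NC i : ℚ) * EC i + (PWC i).2 * (2 * ((ZC i * LC i : ℕ) : ℚ)) := by positivity
    simp only [PWC]
    refine ⟨h8, ?_⟩
    unfold aC
    positivity

theorem phC_pos (i : ℕ) : 0 < phC i := (PWC_pos i).1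
theorem wC_pos (i : ℕ) : 0 < wC i := (PWC_pos i).2

theorem phC_zero : phC 0 = (L0C : ℚ) / 16 := rfl
theorem phC_succ (i : ℕ) :
    phC (i+1) = (NC i : ℚ) * EC i + wC i * (2 * ((ZC i * LC i : ℕ) : ℚ)) := rfl
theorem wC_zero : wC 0 = lamC 0 * aC 0 := rfl
theorem wC_succ (i : ℕ) : wC (i+1) = wC i * (lamC (i+1) * aC (i+1)) := rfl

theorem lamC_pos (i : ℕ) : 0 < lamC i :=
  div_pos (by exact_mod_cast tC_pos i) (phC_pos i)

theorem NE_le (i : ℕ) : (NC i : ℚ) * EC i ≤ phC (i+1) := by
  rw [phC_succ]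
  have := wC_pos i
  have h : 0 ≤ wC i * (2 * ((ZC i * LC i : ℕ) : ℚ)) := by positivity
  linarith

theorem lamC_succ_le (i : ℕ) : lamC (i+1) ≤ (tC (i+1) : ℚ) / ((NC i : ℚ) * EC i) := by
  unfold lamC
  apply div_le_div_of_nonneg_left (Nat.cast_nonneg _) _ (NE_le i)
  have := NC_pos i
  have := EC_pos i
  positivity

/-- the numbers `B_i` -/
def BC : ℕ → ℕ
  | 0 => 16 * 9 * 160
  | (i+1) => BC i * (9 * tC (i+1))

theorem BC_pos (i : ℕ) : 0 < BC i := by
  induction i with
  | zero => simp [BC]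
  | succ i ih => simp only [BC]; have := tC_pos (i+1); positivity

theorem wL_le (i : ℕ) : wC i * LC i ≤ BC i * EC i := by
  induction i with
  | zero =>
    rw [wC_zero]
    unfold lamC aC
    rw [phC_zero]
    have h1 : (L0C : ℚ) ≠ 0 := by simp [L0C]
    simp only [LC, BC, tC]
    apply le_of_eq
    field_simp
    push_cast
    ring
  | succ i ih =>
    rw [wC_succ]
    simp only [LC, BC]
    have h1 := lamC_succ_le i
    have h2 := NC_pos i
    have h3 := EC_pos i
    have h4 := EC_pos (i+1)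
    have h5 := wC_pos i
    have h6 := LCq_pos i
    push_cast
    unfold aC
    calc wC i * (lamC (i+1) * (9 * EC (i+1))) * ((LC i : ℚ) * NC i)
        = (wC i * LC i) * (lamC (i+1) * (9 * EC (i+1) * NC i)) := by ring
      _ ≤ ((BC i : ℚ) * EC i) * ((tC (i+1) : ℚ) / ((NC i : ℚ) * EC i) * (9 * EC (i+1) * NC i)) := by
          apply mul_le_mul ih _ _ (by positivity)
          · exact mul_le_mul_of_nonneg_right h1 (by positivity)
          · have := lamC_pos (i+1)
            positivity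
      _ = (BC i : ℚ) * (9 * tC (i+1)) * EC (i+1) := by
          field_simp

theorem BC_le (i : ℕ) : BC i ≤ 2 ^ (16 * 4 ^ i) := by
  induction i with
  | zero => simp only [BC]; norm_num
  | succ i ih =>
    simp only [BC, tC]
    have h1 := lt_four_pow i
    have h2 : 9 * (160 * 4 ^ (i+1)) ≤ 2 ^ (48 * 4 ^ i) := by
      have h3 : 9 * (160 * 4 ^ (i+1)) ≤ 2 ^ (11 + 2 * (i+1)) := by
        have e4 : (4:ℕ) ^ (i+1) = 2 ^ (2 * (i+1)) := by
          rw [pow_mul 2 2 (i+1)]; norm_num
        rw [e4, pow_add 2 11]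
        have : 9 * (160 * 2 ^ (2 * (i+1))) = 1440 * 2 ^ (2 * (i+1)) := by ring
        rw [this]
        exact Nat.mul_le_mul_right _ (by norm_num)
      refine h3.trans (Nat.pow_le_pow_right (by norm_num) ?_)
      omega
    calc BC i * (9 * (160 * 4 ^ (i+1))) ≤ 2 ^ (16 * 4 ^ i) * 2 ^ (48 * 4 ^ i) :=
          Nat.mul_le_mul ih h2
      _ = 2 ^ (16 * 4 ^ (i+1)) := by rw [← pow_add]; congr 1; ring

theorem wZL_le (i : ℕ) : wC i * (2 * ((ZC i * LC i : ℕ) : ℚ)) ≤ NC i * EC i := by
  have h1 := wL_le i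
  have h2 := BC_le i
  have h3 := EC_pos i
  have h4 := ZC_pos i
  have h5 : 2 * BC i * ZC i ≤ NC i := by
    have h6 : 2 * BC i * ZC i ≤ 2 * 2 ^ (16 * 4 ^ i) * 2 ^ (112 * 4 ^ i) := by
      unfold ZC
      exact Nat.mul_le_mul_right _ (Nat.mul_le_mul_left _ h2)
    refine h6.trans ?_
    unfold NC tC
    rw [← pow_succ', ← pow_add]
    apply Nat.pow_le_pow_right (by norm_num)
    have := lt_four_pow i
    omega
  have h6 : (2:ℚ) * BC i * ZC i ≤ NC i := by exact_mod_cast h5
  push_cast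
  calc wC i * (2 * ((ZC i : ℚ) * LC i)) = 2 * (wC i * LC i) * ZC i := by ring
    _ ≤ 2 * (BC i * EC i) * ZC i := by
        apply mul_le_mul_of_nonneg_right _ h4.le
        linarith
    _ = (2 * BC i * ZC i) * EC i := by ring
    _ ≤ _ := mul_le_mul_of_nonneg_right h6 h3.le

theorem phC_le (i : ℕ) : phC (i+1) ≤ 2 * (NC i * EC i) := by
  rw [phC_succ]
  have := wZL_le i
  linarith

/-- powers -/
theorem pow_convex {u v : ℚ} (hu : 0 < u) (hv : 0 < v) (n : ℕ) :
    (n : ℚ) * u ^ (n - 1) * (v - u) ≤ v ^ n - u ^ n := by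
  have h1 : -2 ≤ (v - u) / u := by
    rw [le_div_iff₀ hu]; linarith
  have h2 := one_add_mul_le_pow h1 n
  have h3 : 1 + (v - u) / u = v / u := by field_simp; ring
  rw [h3, div_pow, le_div_iff₀ (by positivity)] at h2
  rcases Nat.eq_zero_or_pos n with hn | hn
  · subst hn; simp
  · have h4 : u ^ n = u ^ (n-1) * u := by rw [← pow_succ]; congr 1; omega
    have h5 : (1 + (n:ℚ) * ((v - u) / u)) * u ^ n = u ^ n + n * u ^ (n-1) * (v - u) := by
      have : (1 + (n:ℚ) * ((v - u) / u)) * u ^ n = u ^ n + n * ((v - u) / u) * (u ^ (n-1) * u) := by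
        rw [← h4]; ring
      rw [this]; field_simp
    linarith

theorem EC_eq (i : ℕ) : fC i (phC i) = EC i := by
  unfold fC EC
  have := phC_pos i
  congr 1
  field_simp
  norm_num

theorem u_ge {i : ℕ} {x : ℚ} (hx : 0 ≤ x) : 1 ≤ 1 + x / (4 * phC i) := by
  have := phC_pos i
  have : 0 ≤ x / (4 * phC i) := by positivity
  linarith

theorem fC_eq {i : ℕ} {x : ℚ} : lamC i * fC i x = (1 + x / (4 * phC i)) * gC i x := by
  unfold fC gC
  have h : 4 * tC i = (4 * tC i - 1) + 1 := by have := tC_pos i; omega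
  have : (1 + x / (4 * phC i)) ^ (4 * tC i) =
      (1 + x / (4 * phC i)) ^ (4 * tC i - 1) * (1 + x / (4 * phC i)) := by
    rw [← pow_succ, ← h]
  rw [this]; ring

theorem gC_pos {i : ℕ} {x : ℚ} (hx : 0 ≤ x) : 0 < gC i x := by
  unfold gC
  have h1 := u_ge (i := i) hx
  have h2 := lamC_pos i
  have h3 : 0 < 1 + x / (4 * phC i) := by linarith
  positivity

theorem fC_one {i : ℕ} {x : ℚ} (hx : 0 ≤ x) : 1 ≤ fC i x := by
  unfold fC
  exact one_le_pow₀ (u_ge hx)

theorem fC_hconv (i : ℕ) (x y : ℚ) (hx : 0 ≤ x) (hy : 0 ≤ y) :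
    gC i x * (y - x) ≤ fC i y - fC i x := by
  have h1 := u_ge (i := i) hx
  have h2 := u_ge (i := i) hy
  have h3 := pow_convex (u := 1 + x / (4 * phC i)) (v := 1 + y / (4 * phC i)) (by linarith)
    (by linarith) (4 * tC i)
  have hp := phC_pos i
  refine le_trans (le_of_eq ?_) h3
  unfold gC lamC
  push_cast
  field_simp
  ring

theorem gC_sub (i : ℕ) (x y : ℚ) (hy : 0 ≤ y) (hxy : y ≤ x) :
    (1 - lamC i * y) * gC i x ≤ gC i (x - y) := by
  have hp := phC_pos i
  have hx : 0 ≤ x := hy.trans hxy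
  have h1 := u_ge (i := i) hx
  have h2 := u_ge (i := i) (x := x - y) (by linarith)
  have hl := lamC_pos i
  set n := 4 * tC i - 1 with hn
  have hu : 0 < 1 + x / (4 * phC i) := by linarith
  set u := 1 + x / (4 * phC i) with hudef
  have e1 : 1 + (x - y) / (4 * phC i) = u - y / (4 * phC i) := by rw [hudef]; ring
  -- Bernoulli
  have hs0 : 0 ≤ y / (4 * phC i) := by positivity
  have h3 : -2 ≤ -(y / (4 * phC i)) / u := by
    rw [le_div_iff₀ hu]
    have : y / (4 * phC i) ≤ x / (4 * phC i) := by gcongr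
    linarith
  have h4 := one_add_mul_le_pow h3 n
  have h5 : 1 + -(y / (4 * phC i)) / u = (u - y / (4 * phC i)) / u := by field_simp; ring
  rw [h5, div_pow, le_div_iff₀ (by positivity)] at h4
  have h6 : (1 - lamC i * y) * u ^ n ≤ (1 + (n:ℚ) * (-(y / (4 * phC i)) / u)) * u ^ n := by
    apply mul_le_mul_of_nonneg_right _ (by positivity)
    have h7 : (y / (4 * phC i)) / u ≤ y / (4 * phC i) := div_le_self hs0 h1
    have h8 : (n:ℚ) ≤ 4 * tC i := by
      have : n ≤ 4 * tC i := by omega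
      exact_mod_cast this
    have h9 : (n:ℚ) * ((y / (4 * phC i)) / u) ≤ (4 * tC i) * (y / (4 * phC i)) :=
      mul_le_mul h8 h7 (by positivity) (by positivity)
    have h10 : (4 * (tC i : ℚ)) * (y / (4 * phC i)) = lamC i * y := by
      unfold lamC; field_simp
    have h11 : (n:ℚ) * (-(y / (4 * phC i)) / u) = -((n:ℚ) * ((y / (4 * phC i)) / u)) := by ring
    rw [h11]
    linarith
  unfold gC
  rw [← hudef, e1, ← hn]
  calc (1 - lamC i * y) * (lamC i * u ^ n) = lamC i * ((1 - lamC i * y) * u ^ n) := by ring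
    _ ≤ lamC i * (u - y / (4 * phC i)) ^ n := mul_le_mul_of_nonneg_left (h6.trans h4) hl.le

theorem gC_add (i : ℕ) (x y : ℚ) (hx : 0 ≤ x) (hy : 0 ≤ y) (hz : lamC i * y ≤ 1 / 2) :
    gC i (x + y) ≤ (1 + 2 * (lamC i * y)) * gC i x := by
  have h1 := gC_sub i (x + y) y hy (by linarith)
  rw [add_sub_cancel_right] at h1
  have h2 := gC_pos (i := i) (x := x + y) (by linarith)
  have h3 := gC_pos (i := i) (x := x) hx
  have hl := lamC_pos i
  have h4 : 0 ≤ lamC i * y := by positivity
  set z := lamC i * y with hzdef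
  have h5 : (1 + 2 * z) * ((1 - z) * gC i (x + y)) ≤ (1 + 2 * z) * gC i x :=
    mul_le_mul_of_nonneg_left h1 (by linarith)
  have h6 : gC i (x + y) ≤ (1 + 2 * z) * ((1 - z) * gC i (x + y)) := by
    rw [← mul_assoc]
    have : 1 ≤ (1 + 2 * z) * (1 - z) := by nlinarith
    nlinarith
  linarith

theorem gC_mono (i : ℕ) (x y : ℚ) (hx : 0 ≤ x) (hxy : x ≤ y) : gC i x ≤ gC i y := by
  unfold gC
  have hp := phC_pos i
  have hl := lamC_pos i
  have h1 := u_ge (i := i) hx
  apply mul_le_mul_of_nonneg_left _ hl.le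
  apply pow_le_pow_left₀ (by linarith)
  have : x / (4 * phC i) ≤ y / (4 * phC i) := by gcongr
  linarith

theorem gamC_bound (i : ℕ) : 1 ≤ gamC (i+1) ∧ gamC (i+1) ≤ 2 - 1 / 2 ^ (i+1) := by
  induction i with
  | zero => simp only [gamC]; norm_num
  | succ i ih =>
    simp only [gamC]
    set δ : ℚ := 1 / 2 ^ (i+1+6) with hδ
    have hδ0 : 0 < δ := by rw [hδ]; positivity
    have e1 : (1:ℚ) / 2 ^ (i+1) = 64 * δ := by
      rw [hδ, pow_add 2 (i+1) 6]; field_simp; norm_num
    have e2 : (1:ℚ) / 2 ^ (i+1+1) = 32 * δ := by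
      rw [hδ, pow_add 2 (i+1) 6, pow_add 2 (i+1) 1]; field_simp; norm_num
    have h1 := ih.1
    have h2 := ih.2
    rw [e1] at h2
    rw [e2]
    constructor
    · nlinarith
    · nlinarith

theorem lamw_le (j : ℕ) : lamC (j+1) * wC j ≤ (BC (j+1) : ℚ) / (9 * LC (j+1)) := by
  have h1 := lamC_succ_le j
  have h2 := wL_le j
  have h3 := LCq_pos j
  have h4 := NC_pos j
  have h5 := EC_pos j
  have h6 := wC_pos j
  have h7 : wC j ≤ (BC j : ℚ) * EC j / LC j := by rw [le_div_iff₀ h3]; exact h2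
  simp only [LC, BC]
  push_cast
  calc lamC (j+1) * wC j ≤ ((tC (j+1) : ℚ) / ((NC j : ℚ) * EC j)) * ((BC j : ℚ) * EC j / LC j) := by
        apply mul_le_mul h1 h7 h6.le (by positivity)
    _ = (BC j : ℚ) * (9 * tC (j+1)) / (9 * (LC j * NC j)) := by
        field_simp

theorem LC_ge (j : ℕ) : L0C * 2 ^ (160 * 4 ^ j) ≤ LC (j+1) := by
  have h0 : ∀ i, L0C ≤ LC i := by
    intro i
    induction i with
    | zero => exact le_rfl
    | succ i ih =>
      simp only [LC]
      exact ih.trans (Nat.le_mul_of_pos_right _ (by unfold NC; positivity))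
  simp only [LC]
  exact Nat.mul_le_mul_right _ (h0 j)

theorem lamw_le' (j : ℕ) : lamC (j+1) * wC j * (L0C * 2 ^ (96 * 4 ^ j)) ≤ 1 := by
  have h1 := lamw_le j
  have h2 : (BC (j+1) : ℚ) ≤ 2 ^ (64 * 4 ^ j) := by
    have := BC_le (j+1)
    have e : 16 * 4 ^ (j+1) = 64 * 4 ^ j := by ring
    rw [e] at this
    exact_mod_cast this
  have h3 : (L0C : ℚ) * 2 ^ (160 * 4 ^ j) ≤ LC (j+1) := by exact_mod_cast LC_ge j
  have h4 := LCq_pos (j+1)
  have h0 : (0:ℚ) < L0C := by simp [L0C]
  calc lamC (j+1) * wC j * (L0C * 2 ^ (96 * 4 ^ j))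
      ≤ ((BC (j+1) : ℚ) / (9 * LC (j+1))) * (L0C * 2 ^ (96 * 4 ^ j)) :=
        mul_le_mul_of_nonneg_right h1 (by positivity)
    _ = ((BC (j+1) : ℚ) * (L0C * 2 ^ (96 * 4 ^ j))) / (9 * LC (j+1)) := by ring
    _ ≤ 1 := by
        rw [div_le_one (by positivity)]
        calc (BC (j+1) : ℚ) * (L0C * 2 ^ (96 * 4 ^ j)) ≤
              2 ^ (64 * 4 ^ j) * (L0C * 2 ^ (96 * 4 ^ j)) :=
              mul_le_mul_of_nonneg_right h2 (by positivity)
          _ = (L0C : ℚ) * 2 ^ (160 * 4 ^ j) := by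
              have : 160 * 4 ^ j = 64 * 4 ^ j + 96 * 4 ^ j := by ring
              rw [this, pow_add]; ring
          _ ≤ LC (j+1) := h3
          _ ≤ 9 * LC (j+1) := by linarith

theorem L0C_q : (L0C : ℚ) = 419430400 := by simp only [L0C]; norm_num
theorem KC_q : (KC : ℚ) = 9646899200 := by simp only [KC, L0C]; norm_num
theorem G2C_q : G2C = 942080 := by simp only [G2C]; norm_num
theorem lamC_zero : lamC 0 = 2560 / 419430400 := by
  unfold lamC; rw [phC_zero, L0C_q]; simp only [tC]; norm_num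

theorem two_pow_ge_add (i c : ℕ) (k : ℕ) (h : k ≤ c) : (2:ℚ) ^ (i + k) ≤ 2 ^ (c * 4 ^ i + i) := by
  apply pow_le_pow_right₀ (by norm_num)
  have h1 := lt_four_pow i
  have : c * 1 ≤ c * 4 ^ i := Nat.mul_le_mul_left _ (by omega)
  omega

theorem lamw_num (j k : ℕ) (hk : k ≤ 64) : lamC (j+1) * wC j * (L0C * 2 ^ (j + k)) ≤ 1 := by
  have h1 := lamw_le' j
  refine le_trans ?_ h1
  have h2 := lamC_pos (j+1)
  have h3 := wC_pos j
  apply mul_le_mul_of_nonneg_left _ (by positivity)
  apply mul_le_mul_of_nonneg_left _ (Nat.cast_nonneg _)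
  apply pow_le_pow_right₀ (by norm_num)
  have := lt_four_pow j
  omega

theorem typ_lam (i : ℕ) : lamC (i+1) * typC i ≤ 9 * tC (i+1) / ZC i := by
  have h1 := lamC_succ_le i
  have h2 := NC_pos i
  have h3 := EC_pos i
  have h4 := ZC_pos i
  unfold typC
  calc lamC (i+1) * (9 * NC i * EC i / ZC i) ≤
        ((tC (i+1) : ℚ) / ((NC i : ℚ) * EC i)) * (9 * NC i * EC i / ZC i) :=
        mul_le_mul_of_nonneg_right h1 (by positivity)
    _ = _ := by field_simp

theorem typ_one (i : ℕ) : 1 ≤ typC i := by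
  unfold typC
  have h1 := EC_one i
  have h2 := ZC_pos i
  have h3 := NC_pos i
  have h4 : ZC i ≤ NC i := by
    unfold ZC NC tC
    exact Nat.pow_le_pow_right (by norm_num) (Nat.mul_le_mul_right _ (by norm_num))
  have h5 : (ZC i : ℚ) ≤ NC i := by exact_mod_cast h4
  rw [le_div_iff₀ h2]
  nlinarith

/-- explicit parameters -/
def P0 : Par where
  N := NC
  Z := ZC
  L := LC
  K := KC
  f := fC
  g := gC
  lam := lamC
  phi := phC
  a := aC
  w := wC
  typ := typC
  eps := epsC
  gam := gamC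
  G2 := G2C
  hN := by
    intro i
    unfold NC
    calc 2 = 2 ^ 1 := by norm_num
      _ ≤ 2 ^ tC i := Nat.pow_le_pow_right (by norm_num) (tC_pos i)
  hL0 := LC_pos 0
  hL := fun i => rfl
  heven := by simp only [LC, L0C]; norm_num
  hK := by simp only [KC, L0C]; norm_num
  hlam := lamC_pos
  heps := by intro i; unfold epsC; rw [KC_q]; positivity
  hG2 := by rw [G2C_q]; norm_num
  hg0 := fun i x hx => gC_pos hx
  hf1 := fun i x hx => fC_one hx
  hgmono := gC_mono
  hconv := fC_hconv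
  hgf := by
    intro i x hx
    rw [fC_eq]
    have h1 := u_ge (i := i) hx
    have h2 := gC_pos (i := i) hx
    nlinarith
  hfg := by
    intro i x hx hx4
    rw [fC_eq]
    have h2 := gC_pos (i := i) hx
    have hp := phC_pos i
    have h3 : x / (4 * phC i) ≤ 1 := by rw [div_le_one (by positivity)]; exact hx4
    nlinarith
  hcool := by
    intro i x y hx hxy
    have hl := lamC_pos i
    have hp := phC_pos i
    have hy : 0 ≤ y := hx.trans hxy
    have h1 := gC_pos (i := i) hx
    have h2 := gC_pos (i := i) hy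
    have e1 := fC_eq (i := i) (x := x)
    have e2 := fC_eq (i := i) (x := y)
    have h3 : x / (4 * phC i) ≤ y / (4 * phC i) := by gcongr
    have h4 : lamC i * (fC i x * gC i y) ≤ lamC i * (gC i x * fC i y) := by
      calc lamC i * (fC i x * gC i y) = (lamC i * fC i x) * gC i y := by ring
        _ = (1 + x / (4 * phC i)) * (gC i x * gC i y) := by rw [e1]; ring
        _ ≤ (1 + y / (4 * phC i)) * (gC i x * gC i y) :=
          mul_le_mul_of_nonneg_right (by linarith) (by positivity)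
        _ = gC i x * (lamC i * fC i y) := by rw [e2]; ring
        _ = _ := by ring
    exact le_of_mul_le_mul_left h4 hl
  hgsub := gC_sub
  hgadd := gC_add
  hgam0 := rfl
  hgam1 := by
    intro i
    cases i with
    | zero => exact le_rfl
    | succ i => exact (gamC_bound i).1
  hgam2 := by
    intro i
    cases i with
    | zero => simp only [gamC]; norm_num
    | succ i =>
      have h1 := (gamC_bound i).2
      have h2 : (0:ℚ) < 1 / 2 ^ (i+1) := by positivity
      linarith
  hgamS0 := rfl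
  hgamS := by
    intro i hi
    obtain ⟨j, rfl⟩ : ∃ j, i = j + 1 := ⟨i - 1, by omega⟩
    rfl
  heps_def := by
    intro i
    unfold epsC
    have : (0:ℚ) < (KC : ℚ) * 2 ^ (i+10) := by rw [KC_q]; positivity
    rw [one_div, inv_mul_cancel₀ this.ne']
  hphi0 := rfl
  hphi := by
    intro i
    rw [EC_eq]
    exact phC_succ i
  hphi4 := by
    intro i
    have h1 := phC_le i
    have hp := phC_pos i
    have h2 : fC i (4 * phC i) = 16 ^ tC i := by
      unfold fC
      have : 1 + 4 * phC i / (4 * phC i) = 2 := by field_simp; norm_num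
      rw [this, pow_mul]; norm_num
    rw [h2]
    have h3 : (NC i : ℚ) * EC i = (625 / 128) ^ tC i := by
      unfold NC EC
      push_cast
      rw [pow_mul, ← mul_pow]
      norm_num
    rw [h3] at h1
    have h4 : (128 / 15 : ℚ) * (625 / 128) ^ tC i ≤ 16 ^ tC i := by
      have h5 : (16 : ℚ) ^ tC i = (2048 / 625) ^ tC i * (625 / 128) ^ tC i := by
        rw [← mul_pow]; norm_num
      rw [h5]
      apply mul_le_mul_of_nonneg_right _ (by positivity)
      calc (128 / 15 : ℚ) ≤ (2048 / 625) ^ 160 := by norm_num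
        _ ≤ (2048 / 625) ^ tC i := by
          apply pow_le_pow_right₀ (by norm_num)
          unfold tC
          have := lt_four_pow i
          omega
    linarith
  ha := by
    intro i
    have h1 := phC_le i
    have h2 := NC_pos i
    have h3 := EC_pos i
    unfold aC
    have h4 : 0 ≤ (NC i : ℚ) * EC i := by positivity
    linarith
  htyp := by
    intro i
    have h1 := phC_le i
    have h2 := NC_pos i
    have h3 := EC_pos i
    have h4 := ZC_pos i
    unfold typC
    have h5 : (ZC i : ℚ) * (9 * NC i * EC i / ZC i) = 9 * (NC i * EC i) := by field_simp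
    rw [h5]
    have h6 : 0 ≤ (NC i : ℚ) * EC i := by positivity
    linarith
  hZ := fun i => Nat.one_le_two_pow
  hZN := by
    intro i
    unfold ZC NC tC
    exact Nat.pow_le_pow_right (by norm_num) (Nat.mul_le_mul_right _ (by norm_num))
  hw0 := rfl
  hw := fun i => rfl
  ha1 := by intro i; have := EC_one i; unfold aC; linarith
  htyp1 := typ_one
  hJ2 := by
    intro j
    have h1 := lamw_num j 0 (by norm_num)
    have h2 : 0 < lamC (j+1) * wC j := mul_pos (lamC_pos _) (wC_pos _)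
    unfold epsC
    rw [L0C_q, add_zero] at h1
    rw [KC_q, G2C_q, div_mul_eq_mul_div, le_div_iff₀ (by positivity), pow_add]
    have h3 : (0:ℚ) < 2 ^ j := by positivity
    have h4 : 0 ≤ lamC (j+1) * wC j * 2 ^ j := by positivity
    rw [pow_add]
    norm_num at h1 ⊢
    linarith
  hlam0K := by rw [lamC_zero, KC_q, G2C_q]; norm_num
  hlamw := by
    intro j
    have h1 := lamw_num j 12 (by norm_num)
    have h2 : 0 < lamC (j+1) * wC j := mul_pos (lamC_pos _) (wC_pos _)
    rw [le_div_iff₀ (by positivity)]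
    refine le_trans ?_ h1
    apply mul_le_mul_of_nonneg_left _ h2.le
    rw [L0C_q]
    have h3 : (0:ℚ) < 2 ^ (j+12) := by positivity
    linarith
  hlam0 := by rw [lamC_zero]; norm_num
  htypC0 := by
    have h1 := typ_lam 0
    have h2 : lamC (0+1) * (lamC 0 * typC 0) * (KC * G2C) =
        (lamC (0+1) * typC 0) * (lamC 0 * KC * G2C) := by ring
    rw [h2]
    have h3 : lamC 0 * KC * G2C = 58880 * 942080 := by
      rw [lamC_zero, KC_q, G2C_q]; norm_num
    rw [h3]
    have h4 : (9 * (tC (0+1) : ℚ) / ZC 0) ≤ 1 / 2 ^ 60 := by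
      simp only [tC, ZC]; norm_num
    calc (lamC (0+1) * typC 0) * (58880 * 942080) ≤ (1 / 2 ^ 60) * (58880 * 942080) :=
          mul_le_mul_of_nonneg_right (h1.trans h4) (by norm_num)
      _ ≤ 1 / 2 ^ 13 := by norm_num
  htypC := by
    intro j
    have h1 := typ_lam (j+1)
    have h2 : lamC (j+2) * (wC j * lamC (j+1) * typC (j+1)) * (KC * G2C) =
        (lamC (j+1+1) * typC (j+1)) * (lamC (j+1) * wC j) * (KC * G2C) := by ring
    rw [h2]
    have h3 := lamw_num j 64 (by norm_num)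
    have h4 : 0 < lamC (j+1) * wC j := mul_pos (lamC_pos _) (wC_pos _)
    have h5 : (9 * (tC (j+1+1) : ℚ) / ZC (j+1)) ≤ 1 := by
      rw [div_le_one (ZC_pos _)]
      have : 9 * tC (j+1+1) ≤ ZC (j+1) := by
        unfold tC ZC
        have e4 : (4:ℕ) ^ (j+1+1) = 2 ^ (2 * (j+1+1)) := by
          rw [pow_mul 2 2 (j+1+1)]; norm_num
        have h6 : 9 * (160 * 4 ^ (j+1+1)) ≤ 2 ^ (11 + 2 * (j+1+1)) := by
          rw [e4, pow_add 2 11]
          have : 9 * (160 * 2 ^ (2 * (j+1+1))) = 1440 * 2 ^ (2 * (j+1+1)) := by ring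
          rw [this]
          exact Nat.mul_le_mul_right _ (by norm_num)
        refine h6.trans (Nat.pow_le_pow_right (by norm_num) ?_)
        have := lt_four_pow (j+1)
        omega
      exact_mod_cast this
    have h7 : (lamC (j+1+1) * typC (j+1)) * (lamC (j+1) * wC j) ≤ 1 * (lamC (j+1) * wC j) :=
      mul_le_mul_of_nonneg_right (h1.trans h5) h4.le
    have h8 : (0:ℚ) ≤ KC * G2C := by rw [KC_q, G2C_q]; norm_num
    refine (mul_le_mul_of_nonneg_right h7 h8).trans ?_
    rw [one_mul, le_div_iff₀ (by positivity)]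
    refine le_trans ?_ h3
    rw [mul_assoc]
    apply mul_le_mul_of_nonneg_left _ h4.le
    rw [L0C_q, KC_q, G2C_q, pow_add, pow_add]
    have h9 : (0:ℚ) < 2 ^ j := by positivity
    norm_num
    linarith
  hG2a := by rw [G2C_q]; norm_num
  k := kC
  b0 := b0C
  hk := by simp only [LC, kC]; omega
  hKk := by simp only [LC, kC, KC]; omega
  hb0 := by rw [lamC_zero]; simp only [b0C]; norm_num
  hb0L := by simp only [b0C, LC, L0C]; norm_num
  hkb := by simp only [LC, kC, b0C, G2C_q]; push_cast; rw [L0C_q]; norm_num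

end Pool.Agent.Helper542.RK
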