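import Pool.Agent.Helper542.RK.Setup

set_option autoImplicit false

namespace Pool.Agent.Helper542.RK

open Finset

variable {P : Par}

theorem znew_le (st : St) (e x : ℕ) : znew st e x ≤ e := by
  unfold znew
  split_ifs
  · exact le_rfl
  · exact min_le_right _ _

theorem not_out_right {st : St} {e x : ℕ} (h : e < x) (j : ℕ) :
    ¬ (x / P.L j < znew st e x / P.L j) := by
  have h1 := znew_le st e x
  have h2 : znew st e x / P.L j ≤ x / P.L j := Nat.div_le_div_right (by omega)
  omega

theorem Par.f_mono (P : Par) (i : ℕ) {x y : ℚ} (hx : 0 ≤ x) (hxy : x ≤ y) :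
    P.f i x ≤ P.f i y := by
  have h1 := P.hconv i x y hx (hx.trans hxy)
  have h2 := P.hg0 i x hx
  have h3 : 0 ≤ P.g i x * (y - x) := mul_nonneg h2.le (by linarith)
  linarith

theorem sum_out_S (st : St) (i q : ℕ) (p : ℕ → Prop) [DecidablePred p] (h : ℕ → ℚ) :
    ∑ x ∈ (win P i q).filter p, h x * S P st (i+1) x =
      Gs P st i q * ∑ x ∈ (win P i q).filter p, h x * S P st i x := by
  rw [Finset.mul_sum]
  apply Finset.sum_congr rfl
  intro x hx
  rw [Finset.mem_filter, mem_win] at hx
  rw [S_succ, hx.1]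
  ring

theorem sum_pay_S (st : St) (i q : ℕ) (h : ℕ → ℚ) :
    ∑ x ∈ win P i q, h x * S P st (i+1) x =
      Gs P st i q * ∑ x ∈ win P i q, h x * S P st i x := by
  rw [Finset.mul_sum]
  apply Finset.sum_congr rfl
  intro x hx
  rw [mem_win] at hx
  rw [S_succ, hx]
  ring

theorem flow_nonneg {st : St} (hb : Base P st) (i q : ℕ) : 0 ≤ flow P st i q := by
  unfold flow
  apply div_nonneg _ (P.gam_pos i).le
  apply Finset.sum_nonneg
  intro x _
  exact mul_nonneg (hb.al0 x) (hb.S_pos i x).le

theorem pay_nonneg {st : St} (hb : Base P st) {v : ℕ → ℚ} (hv : ∀ x, 0 ≤ v x) (i q : ℕ) :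
    0 ≤ pay P st v i q := by
  unfold pay
  apply Finset.sum_nonneg
  intro x _
  exact mul_nonneg (hv x) (hb.S_pos i x).le

theorem lam_flow_le {T : ℕ} {st : St} (hI : Inv P T st) {i y : ℕ} (hi : i ≤ T) (hy : y < P.L T) :
    P.lam i * flow P st i (y / P.L i) ≤ 2 * (if i = 0 then 1/16 else 1 / 2 ^ (i+10)) := by
  set q := y / P.L i with hq
  have hb := hI.toBase
  have h1 := exit_le hb (fun q => hb.Phi_nonneg i q) (fun x => hb.S_pos i x) q
  rw [sum_out_S] at h1
  have h2 := hI.Fle hi hy
  rw [← hq] at h2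
  have hG := hb.Gpos i q
  have hl := P.hlam i
  have hgam := P.hgam1 i
  set c : ℚ := (if i = 0 then 1/16 else 1 / 2 ^ (i+10)) with hc
  have hc0 : 0 ≤ c := by
    rw [hc]; split_ifs
    · norm_num
    · positivity
  set W := ∑ x ∈ (win P i q).filter (fun x => x / P.L i < st.z x / P.L i), st.al x * S P st i x
    with hW
  have hW0 : 0 ≤ W := by
    apply Finset.sum_nonneg
    intro x _
    exact mul_nonneg (hb.al0 x) (hb.S_pos i x).le
  have h3 : flow P st i q ≤ W := div_le_self hW0 hgam
  have h4 : P.lam i * W ≤ 2 * c := by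
    have h5 : P.lam i * (Gs P st i q * W) ≤ P.lam i * (c * F P st i q) :=
      mul_le_mul_of_nonneg_left h1 hl.le
    have h6 : c * (P.lam i * F P st i q) ≤ c * (2 * Gs P st i q) :=
      mul_le_mul_of_nonneg_left h2 hc0
    have h7 : Gs P st i q * (P.lam i * W) ≤ Gs P st i q * (2 * c) := by
      calc Gs P st i q * (P.lam i * W) = P.lam i * (Gs P st i q * W) := by ring
        _ ≤ P.lam i * (c * F P st i q) := h5
        _ = c * (P.lam i * F P st i q) := by ring
        _ ≤ c * (2 * Gs P st i q) := h6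
        _ = Gs P st i q * (2 * c) := by ring
    exact le_of_mul_le_mul_left h7 hG
  exact (mul_le_mul_of_nonneg_left h3 hl.le).trans h4



theorem cc_pos (i : ℕ) : 0 < cc i := by unfold cc; positivity

/-- numerical step -/
theorem right_num {i : ℕ} {fl py lf lp γ γ' lam : ℚ} (hfl : 0 ≤ fl) (hpy : 0 ≤ py)
    (hlf : lam * fl = lf) (hlp : lam * py = lp)
    (hγ : 1 ≤ γ) (hγ0 : i = 0 → γ = 1 ∧ γ' = 3 / 2)
    (hγS : 1 ≤ i → γ' = γ * (1 + 1 / 2 ^ (i + 6)))
    (h1 : lf ≤ 2 * (if i = 0 then 1/16 else 1 / 2 ^ (i+10)))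
    (h2 : i = 0 → lp ≤ 1 / 8) (h3 : 1 ≤ i → lp ≤ 1 / 2 ^ (i + 11)) :
    (γ * fl) / γ' + cc (i+1) * py ≤ (1 - lam * (fl + cc i * py)) * (fl + cc i * py) := by
  have hD : lam * (fl + cc i * py) = lf + cc i * lp := by rw [← hlf, ← hlp]; ring
  rw [hD]
  rcases Nat.eq_zero_or_pos i with hi | hi
  · subst hi
    obtain ⟨e1, e2⟩ := hγ0 rfl
    have h2' := h2 rfl
    rw [if_pos rfl] at h1
    have c0 : cc 0 = 1 := by unfold cc; norm_num
    have c1 : cc (0+1) = 3 / 4 := by unfold cc; norm_num
    rw [c0, c1, e1, e2]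
    have h4 : 3 / 4 ≤ 1 - (lf + 1 * lp) := by linarith
    have h5 : 3 / 4 * (fl + 1 * py) ≤ (1 - (lf + 1 * lp)) * (fl + 1 * py) :=
      mul_le_mul_of_nonneg_right h4 (by linarith)
    linarith
  · have e := hγS hi
    have h3' := h3 hi
    rw [if_neg (by omega)] at h1
    set δ : ℚ := 1 / 2 ^ (i + 6) with hδ
    have hδ0 : 0 < δ := by rw [hδ]; positivity
    have hδ1 : δ ≤ 1 / 2 := by
      rw [hδ, div_le_div_iff_of_pos_left (by norm_num) (by positivity) (by norm_num)]
      calc (2:ℚ) = 2 ^ 1 := by norm_num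
        _ ≤ 2 ^ (i+6) := pow_le_pow_right₀ (by norm_num) (by omega)
    have e10 : (1:ℚ) / 2 ^ (i+10) = δ / 16 := by
      rw [hδ, pow_add 2 i 10, pow_add 2 i 6]; field_simp; norm_num
    have e11 : (1:ℚ) / 2 ^ (i+11) = δ / 32 := by
      rw [hδ, pow_add 2 i 11, pow_add 2 i 6]; field_simp; norm_num
    have ec : cc i = 1 / 2 + 32 * δ := by
      unfold cc; rw [hδ, pow_add 2 i 6, pow_add 2 i 1]; field_simp; ring
    have ec1 : cc (i+1) = 1 / 2 + 16 * δ := by
      unfold cc; rw [hδ, pow_add 2 i 6, pow_add 2 (i+1) 1, pow_add 2 i 1]; field_simp; ring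
    rw [e10] at h1
    rw [e11] at h3'
    have hcc : cc i ≤ 1 := by
      unfold cc
      have : (1:ℚ) / 2 ^ (i+1) ≤ 1 / 2 := by
        rw [div_le_div_iff_of_pos_left (by norm_num) (by positivity) (by norm_num)]
        calc (2:ℚ) = 2 ^ 1 := by norm_num
          _ ≤ 2 ^ (i+1) := pow_le_pow_right₀ (by norm_num) (by omega)
      linarith
    have hcc0 := cc_pos i
    have hx : lf + cc i * lp ≤ δ / 4 := by
      have : cc i * lp ≤ δ / 32 := by
        rcases le_total 0 lp with h | h
        · calc cc i * lp ≤ 1 * lp := mul_le_mul_of_nonneg_right hcc h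
            _ ≤ δ / 32 := by linarith
        · have : cc i * lp ≤ 0 := mul_nonpos_of_nonneg_of_nonpos hcc0.le h
          linarith
      linarith
    have h5 : (1 - δ / 4) * (fl + cc i * py) ≤ (1 - (lf + cc i * lp)) * (fl + cc i * py) :=
      mul_le_mul_of_nonneg_right (by linarith) (by positivity)
    refine le_trans ?_ h5
    have hγp : 0 < γ := by linarith
    have h6 : (γ * fl) / γ' = fl / (1 + δ) := by
      rw [e]; field_simp
    have h7 : fl / (1 + δ) ≤ (1 - δ / 4) * fl := by
      rw [div_le_iff₀ (by linarith)]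
      have : 1 ≤ (1 - δ / 4) * (1 + δ) := by nlinarith
      nlinarith
    have h8 : cc (i+1) * py ≤ (1 - δ / 4) * (cc i * py) := by
      rw [← mul_assoc]
      apply mul_le_mul_of_nonneg_right _ hpy
      rw [ec, ec1]
      nlinarith
    rw [h6]
    linarith

theorem right_F_of {T : ℕ} {st : St} {e : ℕ} {v : ℕ → ℚ} {zc' : ℕ → ℕ → Finset ℕ}
    (h : Rd P T st e v zc') (b : ℕ → ℚ) (hB : Base P (reply st e b zc')) {i : ℕ} (hi : i ≤ T)
    {y : ℕ} (hy : y < P.L T) (hey : e / P.L i < y / P.L i)
    (hr : Phi P (reply st e b zc') i (y / P.L i) ≤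
      Phi P st i (y / P.L i) - flow P st i (y / P.L i) - cc i * pay P st v i (y / P.L i)) :
    (1 / P.gam (i+1)) * ∑ x ∈ (win P i (y / P.L i)).filter (fun x => x / P.L i < st.z x / P.L i),
        st.al x * S P st (i+1) x +
      cc (i+1) * ∑ x ∈ win P i (y / P.L i), v x * S P st (i+1) x ≤
      F P st i (y / P.L i) - F P (reply st e b zc') i (y / P.L i) := by
  set q := y / P.L i with hq
  have hb := h.hI.toBase
  have hfl := flow_nonneg hb i q
  have hpy := pay_nonneg hb h.v0 i q
  have hΦ := hb.Phi_nonneg i q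
  have hΦ' := hB.Phi_nonneg i q
  have hcc := cc_pos i
  have hD : 0 ≤ flow P st i q + cc i * pay P st v i q := by positivity
  set D := flow P st i q + cc i * pay P st v i q with hDdef
  have hle : Phi P (reply st e b zc') i q ≤ Phi P st i q - D := by linarith
  have hsub0 : 0 ≤ Phi P st i q - D := hΦ'.trans hle
  have h1 : F P (reply st e b zc') i q ≤ P.f i (Phi P st i q - D) := P.f_mono i hΦ' hle
  have h2 := P.hconv i (Phi P st i q - D) (Phi P st i q) hsub0 hΦ
  have h3 : P.f i (Phi P st i q) = F P st i q := rfl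
  have h4 := P.hgsub i (Phi P st i q) D hD (by linarith)
  have h5 : P.g i (Phi P st i q) = Gs P st i q := rfl
  rw [h5] at h4
  have h6 : P.g i (Phi P st i q - D) * (Phi P st i q - (Phi P st i q - D)) =
      P.g i (Phi P st i q - D) * D := by ring
  rw [h6, h3] at h2
  have h7 : (1 - P.lam i * D) * Gs P st i q * D ≤ P.g i (Phi P st i q - D) * D :=
    mul_le_mul_of_nonneg_right h4 hD
  have hG := hb.Gpos i q
  rw [sum_out_S, sum_pay_S]
  have h8 : ∑ x ∈ (win P i q).filter (fun x => x / P.L i < st.z x / P.L i),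
      st.al x * S P st i x = P.gam i * flow P st i q := by
    unfold flow
    have := (P.gam_pos i).ne'
    field_simp
  have h9 : ∑ x ∈ win P i q, v x * S P st i x = pay P st v i q := rfl
  rw [h8, h9]
  have hnum := right_num (i := i) (fl := flow P st i q) (py := pay P st v i q)
    (lf := P.lam i * flow P st i q) (lp := P.lam i * pay P st v i q) (γ := P.gam i)
    (γ' := P.gam (i+1)) (lam := P.lam i) hfl hpy rfl rfl (P.hgam1 i)
    (fun h0 => by subst h0; exact ⟨P.hgam0, P.hgamS0⟩) (P.hgamS i) (lam_flow_le h.hI hi hy)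
    (fun h0 => by subst h0; exact h.pay0 q hey)
    (fun h0 => by
      obtain ⟨j, rfl⟩ : ∃ j, i = j + 1 := ⟨i - 1, by omega⟩
      exact h.pay1 j q hey)
  rw [← hDdef] at hnum
  have h10 := mul_le_mul_of_nonneg_left hnum hG.le
  calc (1 / P.gam (i+1)) * (Gs P st i q * (P.gam i * flow P st i q)) +
        cc (i+1) * (Gs P st i q * pay P st v i q)
      = Gs P st i q * ((P.gam i * flow P st i q) / P.gam (i+1) +
          cc (i+1) * pay P st v i q) := by
        ring
    _ ≤ Gs P st i q * ((1 - P.lam i * D) * D) := h10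
    _ = (1 - P.lam i * D) * Gs P st i q * D := by ring
    _ ≤ P.g i (Phi P st i q - D) * D := h7
    _ ≤ _ := by linarith

theorem right {T : ℕ} {st : St} {e : ℕ} {v : ℕ → ℚ} {zc' : ℕ → ℕ → Finset ℕ}
    (h : Rd P T st e v zc') (b : ℕ → ℚ)
    (hb : ∀ x, e / P.L 0 < x / P.L 0 → b x = st.al x + v x)
    (hB : Base P (reply st e b zc')) :
    ∀ i, i ≤ T → ∀ x, x < P.L T → e / P.L i < x / P.L i →
      Phi P (reply st e b zc') i (x / P.L i) ≤
        Phi P st i (x / P.L i) - flow P st i (x / P.L i) - cc i * pay P st v i (x / P.L i) := by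
  intro i
  induction i with
  | zero =>
    intro _ x hx hex
    set q := x / P.L 0 with hq
    rw [Phi_zero, Phi_zero]
    have h1 : (reply st e b zc').M ∩ win P 0 q = st.M ∩ win P 0 q := by
      ext y
      simp only [reply, Finset.mem_inter, Finset.mem_insert, mem_win]
      constructor
      · rintro ⟨h2 | h2, h3⟩
        · exfalso; rw [h2] at h3; omega
        · exact ⟨h2, h3⟩
      · rintro ⟨h2, h3⟩; exact ⟨Or.inr h2, h3⟩
    rw [h1]
    have h2 : (win P 0 q).filter (fun x => ¬ (x / P.L 0 < (reply st e b zc').z x / P.L 0)) =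
        win P 0 q := by
      apply Finset.filter_true_of_mem
      intro y hy
      rw [mem_win] at hy
      apply not_out_right
      apply lt_of_div_lt (P := P) (i := 0)
      omega
    rw [h2]
    have h3 : ∑ y ∈ win P 0 q, (reply st e b zc').al y = ∑ y ∈ win P 0 q, (st.al y + v y) := by
      apply Finset.sum_congr rfl
      intro y hy
      rw [mem_win] at hy
      exact hb y (by omega)
    rw [h3, Finset.sum_add_distrib]
    have h4 : flow P st 0 q = ∑ x ∈ (win P 0 q).filter (fun x => x / P.L 0 < st.z x / P.L 0),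
        st.al x := by
      unfold flow
      rw [P.hgam0, div_one]
      apply Finset.sum_congr rfl
      intro y _
      rw [S_zero, mul_one]
    have h5 : pay P st v 0 q = ∑ x ∈ win P 0 q, v x := by
      unfold pay
      apply Finset.sum_congr rfl
      intro y _
      rw [S_zero, mul_one]
    have h6 : cc 0 = 1 := by unfold cc; norm_num
    rw [h4, h5, h6]
    have h7 := Finset.sum_filter_add_sum_filter_not (win P 0 q)
      (fun x => x / P.L 0 < st.z x / P.L 0) st.al
    linarith
  | succ i ih =>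
    intro hi x hx hex
    set q := x / P.L (i+1) with hq
    rw [Phi_succ, Phi_succ]
    have h1 : (reply st e b zc').zc (i+1) q = st.zc (i+1) q := h.zeq (i+1) q (by omega)
    rw [h1]
    have h2 : (win P (i+1) q).filter (fun x => x / P.L i < (reply st e b zc').z x / P.L i ∧
        ¬ (x / P.L (i+1) < (reply st e b zc').z x / P.L (i+1))) = ∅ := by
      apply Finset.filter_false_of_mem
      intro y hy
      rw [mem_win] at hy
      have hey : e < y := lt_of_div_lt (P := P) (i := i+1) (by omega)
      intro hcon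
      exact not_out_right hey i hcon.1
    rw [h2, Finset.sum_empty, zero_div]
    have hbs := h.hI.toBase
    -- sum over the kids
    have h3 : ∀ r ∈ kids P i q,
        (1 / P.gam (i+1)) * ∑ x ∈ (win P i r).filter (fun x => x / P.L i < st.z x / P.L i),
          st.al x * S P st (i+1) x + cc (i+1) * ∑ x ∈ win P i r, v x * S P st (i+1) x ≤
        F P st i r - F P (reply st e b zc') i r := by
      intro r hr
      rw [mem_kids] at hr
      have hrL : (r * P.L i) / P.L i = r := Nat.mul_div_cancel _ (P.Lpos i)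
      have hr1 : (r * P.L i) / P.L (i+1) = q := by rw [div_succ, hrL, hr]
      have hlt : r * P.L i < P.L T := window_lt hi hx (by rw [hr1])
      have her : e / P.L i < (r * P.L i) / P.L i :=
        div_lt_anti (i := i) (j := i+1) (by omega) (by rw [hr1]; exact hex)
      have := right_F_of h b hB (i := i) (by omega) hlt her (ih (by omega) _ hlt her)
      rwa [hrL] at this
    have h4 := Finset.sum_le_sum h3
    rw [Finset.sum_add_distrib, Finset.sum_sub_distrib, ← Finset.mul_sum, ← Finset.mul_sum,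
      ← sum_win_succ] at h4
    have h5 : ∑ r ∈ kids P i q, ∑ x ∈ win P i r, v x * S P st (i+1) x =
        pay P st v (i+1) q := by
      unfold pay
      have := sum_win_succ (P := P) (fun _ => True) (fun x => v x * S P st (i+1) x) i q
      simp only [Finset.filter_true] at this
      exact this.symm
    rw [h5] at h4
    have h6 : flow P st (i+1) q = (1 / P.gam (i+1)) *
        ∑ x ∈ (win P (i+1) q).filter (fun x => x / P.L i < st.z x / P.L i),
          st.al x * S P st (i+1) x -
        (∑ x ∈ (win P (i+1) q).filter (fun x => x / P.L i < st.z x / P.L i ∧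
          ¬ (x / P.L (i+1) < st.z x / P.L (i+1))), st.al x * S P st (i+1) x) / P.gam (i+1) := by
      unfold flow
      have h7 : ∑ x ∈ (win P (i+1) q).filter (fun x => x / P.L i < st.z x / P.L i),
          st.al x * S P st (i+1) x =
          ∑ x ∈ (win P (i+1) q).filter (fun x => x / P.L (i+1) < st.z x / P.L (i+1)),
            st.al x * S P st (i+1) x +
          ∑ x ∈ (win P (i+1) q).filter (fun x => x / P.L i < st.z x / P.L i ∧
            ¬ (x / P.L (i+1) < st.z x / P.L (i+1))), st.al x * S P st (i+1) x := by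
        rw [← Finset.sum_union]
        · apply Finset.sum_congr _ (fun _ _ => rfl)
          ext y
          simp only [Finset.mem_filter, Finset.mem_union]
          constructor
          · rintro ⟨h8, h9⟩
            by_cases h10 : y / P.L (i+1) < st.z y / P.L (i+1)
            · exact Or.inl ⟨h8, h10⟩
            · exact Or.inr ⟨h8, h9, h10⟩
          · rintro (⟨h8, h9⟩ | ⟨h8, h9, _⟩)
            · exact ⟨h8, div_lt_anti (i := i) (j := i+1) (by omega) h9⟩
            · exact ⟨h8, h9⟩
        · rw [Finset.disjoint_left]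
          intro y hy1 hy2
          rw [Finset.mem_filter] at hy1 hy2
          exact hy2.2.2 hy1.2
      rw [h7]
      ring
    linarith

theorem right_F {T : ℕ} {st : St} {e : ℕ} {v : ℕ → ℚ} {zc' : ℕ → ℕ → Finset ℕ}
    (h : Rd P T st e v zc') (b : ℕ → ℚ)
    (hb : ∀ x, e / P.L 0 < x / P.L 0 → b x = st.al x + v x)
    (hB : Base P (reply st e b zc')) {i : ℕ} (hi : i ≤ T) {y : ℕ} (hy : y < P.L T)
    (hey : e / P.L i < y / P.L i) :
    (1 / P.gam (i+1)) * ∑ x ∈ (win P i (y / P.L i)).filter (fun x => x / P.L i < st.z x / P.L i),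
        st.al x * S P st (i+1) x +
      cc (i+1) * ∑ x ∈ win P i (y / P.L i), v x * S P st (i+1) x ≤
      F P st i (y / P.L i) - F P (reply st e b zc') i (y / P.L i) :=
  right_F_of h b hB hi hy hey (right h b hb hB i hi y hy hey)

end Pool.Agent.Helper542.RK
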