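import Pool.Agent.Helper923.RK.MainB

set_option autoImplicit false

namespace Pool.Agent.Helper542.RK

open Finset

variable {P : Par} {T : ℕ} {st : St} {n c a b e : ℕ} {m : ℚ}

theorem MR.lamS (h : MR P T st n c a b e m) {l : ℕ} (hl : l < c) :
    P.lam l * S P st l e ≤ 1 / 2 ^ (l + 10) := by
  have hb := h.hI.toBase
  cases l with
  | zero =>
    rw [S_zero, mul_one]
    exact P.hlam0
  | succ j =>
    have h1 := h.m_le h.hae h.heb hl
    have h2 := h.hte
    have hjT : j + 1 ≤ T := by have := h.g.hcT; omega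
    rw [S_split hjT] at h2
    have h3 := hb.Pi_pos (j+1) T e
    have h4 := P.hG2
    have h5 := P.hlam (j+1)
    have h6 : S P st (j+1) e * Pi' P st (j+1) T e ≤
        (P.G2 / 32 * Ct P (j+1)) * Pi' P st (j+1) T e := by
      calc S P st (j+1) e * Pi' P st (j+1) T e ≤ P.G2 / 32 * m := h2
        _ ≤ P.G2 / 32 * (Ct P (j+1) * Pi' P st (j+1) T e) :=
          mul_le_mul_of_nonneg_left h1 (by positivity)
        _ = _ := by ring
    have h7 := le_of_mul_le_mul_right h6 h3
    have h8 := lam_Ct_G2 P j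
    have h9 : P.lam (j+1) * S P st (j+1) e ≤ P.lam (j+1) * (P.G2 / 32 * Ct P (j+1)) :=
      mul_le_mul_of_nonneg_left h7 h5.le
    have h10 : P.lam (j+1) * (P.G2 / 32 * Ct P (j+1)) =
        (P.lam (j+1) * Ct P (j+1) * P.G2) / 32 := by ring
    have h11 : (1:ℚ) / 2 ^ (j+13) ≤ 1 / 2 ^ (j+1+10) := by
      apply div_le_div_of_nonneg_left (by norm_num) (by positivity)
      exact pow_le_pow_right₀ (by norm_num) (by omega)
    have h12 : (0:ℚ) < 1 / 2 ^ (j+13) := by positivity
    linarith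

theorem MR.term (h : MR P T st n c a b e m) {x : ℕ} (hv : vis st n x) (hax : a ≤ x) (hxb : x < b)
    (hne : x / P.L 0 ≠ e / P.L 0) :
    (P.b0 : ℚ) / P.L 0 * (m / 64) ≤ pv P T st n a b e m x * S P st T x := by
  have hS := h.hI.toBase.S_pos T x
  have hm := h.hm0
  have h9 : (P.b0 : ℚ) / P.L 0 ≤ 1 := by
    rw [div_le_one (by exact_mod_cast P.hL0)]
    exact_mod_cast P.hb0L
  have h5 := P.hG2a
  rcases lt_or_gt_of_ne hne with hlt | hgt
  · rw [h.pv_left hv hax hlt]
    have h1 := h.al_left hv hlt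
    have h2 := h.hI.toBase.al0 x
    have h3 : (m / (32 * S P st T x) - st.al x) * S P st T x = m / 32 - st.al x * S P st T x := by
      field_simp
    rw [h3]
    have h4 : 0 ≤ st.al x * S P st T x := by positivity
    have h6 : 64 * (st.al x * S P st T x) ≤ m := by nlinarith
    have h7 : (P.b0 : ℚ) / P.L 0 * (m / 64) ≤ 1 * (m / 64) :=
      mul_le_mul_of_nonneg_right h9 (by positivity)
    linarith
  · unfold pv
    rw [if_pos ⟨hv, hax, hxb⟩, if_neg (by omega), if_pos hgt]
    apply le_of_eq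
    field_simp

theorem MR.payc (h : MR P T st n c a b e m) :
    3 / 2 * S P st c e ≤ 9 / 20 * pay P st (pv P T st n a b e m) c (e / P.L c) := by
  have hb := h.hI.toBase
  have hcT := h.g.hcT
  have hPi := hb.Pi_pos c T e
  have hm := h.hm0
  have hG := P.hG2
  -- the payers
  set W := (((Finset.Ico a b).filter (fun x => vis st n x)).filter
    (fun x => x / P.L 0 ≠ e / P.L 0)) with hW
  have hcard : P.k ≤ W.card + P.L 0 := by
    have h1 := h.g.hcard
    have h2 := Finset.card_filter_add_card_filter_not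
      (s := (Finset.Ico a b).filter (fun x => vis st n x)) (fun x => x / P.L 0 ≠ e / P.L 0)
    have h3 : (((Finset.Ico a b).filter (fun x => vis st n x)).filter
        (fun x => ¬ (x / P.L 0 ≠ e / P.L 0))).card ≤ P.L 0 := by
      refine le_trans (Finset.card_le_card (t := win P 0 (e / P.L 0)) ?_) (card_win 0 _).le
      intro x hx
      rw [Finset.mem_filter] at hx
      rw [mem_win]
      have := hx.2
      push Not at this
      exact this
    rw [← hW] at h2
    omega
  have hL0 : (0:ℚ) < P.L 0 := by exact_mod_cast P.hL0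
  set β : ℚ := (P.b0 : ℚ) / P.L 0 with hβ
  have hβ0 : 0 ≤ β := by positivity
  have hcard2 : 7 * P.G2 ≤ (W.card : ℚ) * β := by
    have h1 := P.hkb
    have h2 : (P.k : ℚ) ≤ W.card + P.L 0 := by exact_mod_cast hcard
    have h3 : 7 * P.G2 * P.L 0 ≤ (W.card : ℚ) * P.b0 := by
      have h4 : ((P.k : ℚ) - P.L 0) * P.b0 ≤ (W.card : ℚ) * P.b0 :=
        mul_le_mul_of_nonneg_right (by linarith) (Nat.cast_nonneg _)
      linarith
    rw [hβ, ← mul_div_assoc, le_div_iff₀ hL0]
    exact h3
  -- the sum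
  have hsub : W ⊆ win P c (e / P.L c) := by
    intro x hx
    rw [hW, Finset.mem_filter, Finset.mem_filter, Finset.mem_Ico] at hx
    rw [mem_win, h.g.hwin x hx.1.1.1 hx.1.1.2, h.g.hwin e h.hae h.heb]
  have hsum : (W.card : ℚ) * (β * (m / 64)) ≤
      pay P st (pv P T st n a b e m) c (e / P.L c) * Pi' P st c T e := by
    unfold pay
    rw [Finset.sum_mul]
    have h1 : ∑ x ∈ W, pv P T st n a b e m x * S P st c x * Pi' P st c T e ≤
        ∑ x ∈ win P c (e / P.L c), pv P T st n a b e m x * S P st c x * Pi' P st c T e := by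
      apply Finset.sum_le_sum_of_subset_of_nonneg hsub
      intro x _ _
      exact mul_nonneg (mul_nonneg (h.v0 x) (hb.S_pos c x).le) hPi.le
    refine le_trans ?_ h1
    have h2 : ∀ x ∈ W, β * (m / 64) ≤ pv P T st n a b e m x * S P st c x * Pi' P st c T e := by
      intro x hx
      have hxw := hsub hx
      rw [mem_win] at hxw
      rw [hW, Finset.mem_filter, Finset.mem_filter, Finset.mem_Ico] at hx
      have h3 := h.term hx.1.2 hx.1.1.1 hx.1.1.2 hx.2
      rw [S_split hcT x, Pi_congr hxw] at h3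
      rw [mul_assoc]
      exact h3
    have h3 := Finset.card_nsmul_le_sum _ _ _ h2
    rw [nsmul_eq_mul] at h3
    exact h3
  have h2 := h.hte
  rw [S_split hcT] at h2
  have h3 : 7 * P.G2 * (m / 64) ≤ (W.card : ℚ) * (β * (m / 64)) := by
    calc 7 * P.G2 * (m / 64) ≤ ((W.card : ℚ) * β) * (m / 64) :=
          mul_le_mul_of_nonneg_right hcard2 (by positivity)
      _ = _ := by ring
  have h4 : (3 / 2 * S P st c e) * Pi' P st c T e ≤
      (9 / 20 * pay P st (pv P T st n a b e m) c (e / P.L c)) * Pi' P st c T e := by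
    have h5 : 0 ≤ P.G2 * m := by positivity
    linarith
  exact le_of_mul_le_mul_right h4 hPi

theorem vis_lt_T (hI : Inv P T st) {n t : ℕ} (ht : vis st n t) : t < P.L T := by
  rcases ht.2 with hU | hz
  · exact hI.U_lt t hU
  · apply hI.x_lt
    have := ht.1
    omega

theorem main_reply {T : ℕ} {st : St} (hI : Inv P T st) {n : ℕ} (c a b : ℕ) (hc : 1 ≤ c)
    (hab : a < b) (ha : P.L 0 ∣ a) (hb : P.L 0 ∣ b) (hta : ∃ t, vis st n t ∧ t < a)
    (htb : ∃ t, vis st n t ∧ b ≤ t)
    (hw : ∀ x, a ≤ x → x < b → x / P.L c = a / P.L c)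
    (hk : P.k ≤ (((Finset.range n).filter (fun x => vis st n x)).filter
      (fun x => a ≤ x ∧ x < b)).card)
    (hgeo : ∀ x, a ≤ x → x < b → ∀ j, j + 1 < c → ∃ y0, P.L j ∣ y0 ∧ a ≤ y0 ∧
      y0 + P.Z j * P.L j ≤ b ∧
      ∀ y, y0 ≤ y → y < y0 + P.Z j * P.L j → y / P.L (j+1) = x / P.L (j+1)) :
    ∃ e v c', Rd P T st e v st.zc ∧ Even e ∧ a ≤ e ∧ e < b ∧ c' + 1 ≤ T ∧
      (∀ l < c' + 1, P.lam l * S P st l e ≤ 1 / 2 ^ (l + 10)) ∧
      3 / 2 * S P st (c'+1) e ≤ 9 / 20 * pay P st v (c'+1) (e / P.L (c'+1)) := by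
  obtain ⟨tK, htK, hbt⟩ := htb
  have hbT : b < P.L T := lt_of_le_of_lt hbt (vis_lt_T hI htK)
  have hT1 : 1 ≤ T := by
    by_contra hcon
    have hT0 : T = 0 := by omega
    subst hT0
    have := Nat.le_of_dvd (by omega) hb
    omega
  have hg : MG P T st n (min c T) a b := by
    refine ⟨by omega, min_le_right _ _, ha, hb, hab, hbT.le, ?_, ?_, ⟨tK, htK, hbt⟩, ?_, ?_⟩
    · intro x hax hxb
      rcases le_total c T with h | h
      · rw [min_eq_left h]; exact hw x hax hxb
      · rw [min_eq_right h, Nat.div_eq_of_lt (by omega), Nat.div_eq_of_lt (by omega)]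
    · obtain ⟨t, h1, h2⟩ := hta; exact ⟨t, h1, h2.le⟩
    · refine hk.trans (Finset.card_le_card ?_)
      intro x hx
      rw [Finset.mem_filter, Finset.mem_filter] at hx
      rw [Finset.mem_filter, Finset.mem_Ico]
      exact ⟨hx.2, hx.1.2⟩
    · intro x j hax hxb hj
      exact hgeo x hax hxb j (by omega)
  have hbase := hI.toBase
  have hL0 := P.hL0
  -- the minimum
  obtain ⟨x1, hx1, hmin⟩ := Finset.exists_min_image (Finset.Ico a b) (fun x => S P st T x)
    ⟨a, by rw [Finset.mem_Ico]; exact ⟨le_rfl, hab⟩⟩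
  rw [Finset.mem_Ico] at hx1
  set m := S P st T x1 with hm
  have hm0 : 0 < m := hbase.S_pos T x1
  have hm' : ∀ x, a ≤ x → x < b → m ≤ S P st T x := fun x h1 h2 =>
    hmin x (by rw [Finset.mem_Ico]; exact ⟨h1, h2⟩)
  have hG := P.hG2a
  -- the leftmost cheap position
  have hY : ((Finset.Ico a b).filter (fun x => S P st T x ≤ P.G2 / 32 * m)).Nonempty := by
    refine ⟨x1, ?_⟩
    rw [Finset.mem_filter, Finset.mem_Ico]
    refine ⟨hx1, ?_⟩
    rw [← hm]
    nlinarith
  set x0 := ((Finset.Ico a b).filter (fun x => S P st T x ≤ P.G2 / 32 * m)).min' hY with hx0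
  have hx0m := Finset.min'_mem _ hY
  rw [← hx0, Finset.mem_filter, Finset.mem_Ico] at hx0m
  have hx01 : x0 ≤ x1 := by
    apply Finset.min'_le
    rw [Finset.mem_filter, Finset.mem_Ico]
    refine ⟨hx1, ?_⟩
    rw [← hm]
    nlinarith
  obtain ⟨e, he, heven, he0, heM⟩ := hI.free_even (x := x0) (by omega)
  obtain ⟨a', ha'⟩ := ha
  obtain ⟨b', hb'⟩ := hb
  have hae : a ≤ e := by
    have h1 : a' ≤ x0 / P.L 0 := by
      rw [Nat.le_div_iff_mul_le hL0, mul_comm, ← ha']; exact hx0m.1.1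
    rw [← he] at h1
    rw [ha', mul_comm]
    exact (Nat.le_div_iff_mul_le hL0).1 h1
  have heb : e < b := by
    have h1 : x0 / P.L 0 < b' := by
      apply Nat.div_lt_of_lt_mul
      rw [← hb']; exact hx0m.1.2
    rw [← he] at h1
    rw [hb', mul_comm]
    exact (Nat.div_lt_iff_lt_mul hL0).1 h1
  have hMR : MR P T st n (min c T) a b e m := by
    refine ⟨hg, hI, hae, heb, he0, heM, hm0, hm', ⟨x1, hx1.1, hx1.2, rfl, ?_⟩, ?_, ?_⟩
    · rw [he]; exact Nat.div_le_div_right hx01
    · intro x hax hxe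
      by_contra hcon
      push Not at hcon
      rw [he] at hxe
      have hlt := lt_of_div_lt hxe
      have : x0 ≤ x := by
        apply Finset.min'_le
        rw [Finset.mem_filter, Finset.mem_Ico]
        exact ⟨⟨hax, by omega⟩, hcon⟩
      omega
    · rw [S_congr T he]; exact hx0m.2
  refine ⟨e, pv P T st n a b e m, min c T - 1, hMR.rd, heven, hae, heb, by omega, ?_, ?_⟩
  · intro l hl
    exact hMR.lamS (by omega)
  · have h1 : min c T - 1 + 1 = min c T := by omega
    rw [h1]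
    exact hMR.payc

end Pool.Agent.Helper542.RK
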