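import Pool.Agent.Helper542.RK.Game
import Pool.Agent.Helper923.RK.Main
import Pool.Agent.Helper923.RK.Param

set_option autoImplicit false

namespace Pool.Agent.Helper542.RK

open Finset

/-- every token is a move of A, every record a mark -/
theorem zOf_mem (h : Hist) (x : ℕ) : (∀ y ∈ (uz h x).1, y ∈ h.map Prod.fst) ∧
    ((uz h x).2 ≠ 0 → x ∈ h.map Prod.fst) := by
  induction h using List.reverseRecOn with
  | nil => simp [uz]
  | append_singleton h ar ih =>
    unfold uz at ih ⊢
    rw [List.foldl_append]
    simp only [List.foldl_cons, List.foldl_nil]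
    set s := h.foldl (ustep x) ([], 0) with hs
    obtain ⟨a, r⟩ := ar
    cases r with
    | none =>
      simp only [ustep]
      constructor
      · intro y hy
        rw [List.mem_cons] at hy
        rw [List.map_append, List.mem_append]
        rcases hy with hy | hy
        · right; simp [hy]
        · left; exact ih.1 y hy
      · intro hz
        rw [List.map_append, List.mem_append]
        exact Or.inl (ih.2 hz)
    | some e =>
      simp only [ustep]
      constructor
      · intro y hy; simp at hy
      · intro hz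
        rw [List.map_append, List.mem_append]
        by_cases hx : x ∈ a :: s.1
        · rw [List.mem_cons] at hx
          rcases hx with hx | hx
          · right; simp [hx]
          · left; exact ih.1 x hx
        · rw [if_neg hx] at hz
          left
          apply ih.2
          intro h0
          rw [h0] at hz
          simp at hz

theorem zOf_mem' {h : Hist} {x : ℕ} (hz : 0 < zOf h x) : x ∈ h.map Prod.fst :=
  (zOf_mem h x).2 (by unfold zOf at hz; omega)

/-- the bounded form of the invariant -/
structure InvBd (T : ℕ) (h : Hist) (d : Dt) : Prop where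
  Uz : ∀ x ∈ Ulist h, zOf h x = 0
  al1 : ∀ x < d.1.length, alOf d.1 x ≤ 1 / 16
  alz : ∀ x < d.1.length, zOf h x = 0 → alOf d.1 x ≤ 0
  al2 : ∀ x < d.1.length, x / LC 0 < zOf h x / LC 0 → G2C * alOf d.1 x ≤ 1
  J1p : ∀ p < LC T, ∀ j < T, 1 ≤ j → p / LC j < zOf h p / LC j →
    alOf d.1 p * S P0 (stOf h d) (j+1) p ≤ epsC j * F P0 (stOf h d) j (p / LC j)
  JZ : ∀ t ∈ d.2, 0 < t.1 → inZone P0 (t.1 - 1) t.2.1 t.2.2 ∧ 0 < zOf h t.2.2 ∧
    zOf h t.2.2 < (t.2.1+1) * LC t.1
  cnt : ∀ n < LC T + 1, cntv (stOf h d) n < KC
  M_lt : ∀ x ∈ Mlist h, x < LC T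
  U_lt : ∀ x ∈ Ulist h, x < LC T
  z_lt : ∀ x ∈ h.map Prod.fst, zOf h x < LC T
  x_lt : ∀ x ∈ h.map Prod.fst, 0 < zOf h x → x < LC T
  J2 : ∀ p < LC T, ∀ l < LC T, p / LC 0 ≤ l / LC 0 → l / LC 0 < zOf h p / LC 0 →
    G2C * alOf d.1 p * S P0 (stOf h d) T p ≤ S P0 (stOf h d) T l
  J1z : ∀ p < LC T, ∀ j < T, 1 ≤ j → p / LC j < zOf h p / LC j →
    alOf d.1 p * S P0 (stOf h d) T p ≤
      epsC j * (F P0 (stOf h d) j (zOf h p / LC j) * Pi' P0 (stOf h d) (j+1) T (zOf h p))
  pot : Phi P0 (stOf h d) T 0 ≤ phC T

theorem alOf_nonneg (l : List (ℕ × ℕ)) (x : ℕ) : 0 ≤ alOf l x := by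
  unfold alOf; positivity

theorem alOf_ge (l : List (ℕ × ℕ)) {x : ℕ} (hx : l.length ≤ x) : alOf l x = 0 := by
  unfold alOf
  rw [List.getD_eq_default _ _ hx]
  simp

theorem good_iff (h : Hist) (d : Dt) : Good P0 h d ↔ ∃ T, InvBd T h d := by
  constructor
  · rintro ⟨⟨T, hI⟩, hc⟩
    refine ⟨T, ?_⟩
    constructor
    · intro x hx
      exact hI.Uz x (by simpa [stOf] using hx)
    · intro x _; exact hI.al1 x
    · intro x _ hz; exact (hI.alz x hz).le
    · intro x _ hx; exact hI.al2 x hx
    · intro p _ j _ hj hp; exact hI.J1p p j hj hp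
    · rintro ⟨i', q, x⟩ ht hi
      simp only at hi
      obtain ⟨i, rfl⟩ : ∃ i, i' = i + 1 := ⟨i' - 1, by omega⟩
      have : x ∈ (stOf h d).zc (i+1) q := by
        simp only [stOf, zcOf, List.mem_toFinset, List.mem_map, List.mem_filter,
          decide_eq_true_eq]
        exact ⟨(i+1, q, x), ⟨ht, rfl, rfl⟩, rfl⟩
      exact hI.JZ i q x this
    · intro n _; exact hc n
    · intro x hx; exact hI.M_lt x (by simpa [stOf] using hx)
    · intro x hx; exact hI.U_lt x (by simpa [stOf] using hx)
    · intro x _; exact hI.z_lt x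
    · intro x _ hx; exact hI.x_lt x hx
    · intro p _ l _ h1 h2; exact hI.J2 p l h1 h2
    · intro p _ j _ hj hp; exact hI.J1z p j hj hp
    · exact hI.pot
  · rintro ⟨T, hB⟩
    have hLT : 0 < LC T := LC_pos T
    have zlt : ∀ x, zOf h x < LC T := by
      intro x
      rcases Nat.eq_zero_or_pos (zOf h x) with h0 | h0
      · rw [h0]; exact hLT
      · exact hB.z_lt x (zOf_mem' h0)
    have xlt : ∀ x, 0 < zOf h x → x < LC T := fun x hx => hB.x_lt x (zOf_mem' hx) hx
    have hal0 : ∀ x, zOf h x = 0 → alOf d.1 x = 0 := by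
      intro x hz
      rcases lt_or_ge x d.1.length with hx | hx
      · exact le_antisymm (hB.alz x hx hz) (alOf_nonneg _ _)
      · exact alOf_ge _ hx
    have hjT : ∀ x y j, y < LC T → x / LC j < y / LC j → j < T := by
      intro x y j hy hxy
      by_contra hcon
      push Not at hcon
      have h1 : LC T ≤ LC j := by
        clear * - hcon
        induction j, hcon using Nat.le_induction with
        | base => exact le_rfl
        | succ j _ ih =>
          simp only [LC]
          exact ih.trans (Nat.le_mul_of_pos_right _ (by unfold NC; positivity))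
      rw [Nat.div_eq_of_lt (lt_of_lt_of_le hy h1)] at hxy
      exact absurd hxy (Nat.not_lt_zero _)
    have hcnt : ∀ n, cntv (stOf h d) n < KC := by
      intro n
      rcases Nat.lt_or_ge n (LC T + 1) with hn | hn
      · exact hB.cnt n hn
      · refine lt_of_le_of_lt (Finset.card_le_card ?_) (hB.cnt (LC T) (by omega))
        intro x hx
        rw [Finset.mem_filter, Finset.mem_range] at hx
        obtain ⟨h1, h2, h3⟩ := hx
        rcases h3 with h3 | h3
        · have h4 : x < LC T := hB.U_lt x (by simpa [stOf] using h3)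
          rw [Finset.mem_filter, Finset.mem_range]
          exact ⟨h4, h4, Or.inl h3⟩
        · exfalso
          have h4 : zOf h x < LC T := zlt x
          have h5 : n ≤ zOf h x := h3
          omega
    refine ⟨⟨T, ?_⟩, hcnt⟩
    refine { Uz := ?_, al0 := ?_, al1 := ?_, alz := ?_, al2 := ?_, J1p := ?_, JZ := ?_,
             cnt := ?_, M_lt := ?_, U_lt := ?_, z_lt := zlt, x_lt := xlt, J2 := ?_, J1z := ?_,
             pot := hB.pot }
    · intro x hx; exact hB.Uz x (by simpa [stOf] using hx)
    · intro x; exact alOf_nonneg _ _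
    · intro x
      rcases lt_or_ge x d.1.length with hx | hx
      · exact hB.al1 x hx
      · have : (stOf h d).al x = 0 := alOf_ge _ hx
        rw [this]; norm_num
    · intro x hz; exact hal0 x hz
    · intro x hx
      rcases lt_or_ge x d.1.length with hxl | hxl
      · exact hB.al2 x hxl hx
      · have : (stOf h d).al x = 0 := alOf_ge _ hxl
        rw [this]; simp
    · intro p j hj hp
      have h1 := hjT p _ j (zlt p) hp
      have h2 : 0 < zOf h p := by
        by_contra hcon
        have h3 : zOf h p = 0 := by omega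
        have h4 : (stOf h d).z p = 0 := h3
        rw [h4, Nat.zero_div] at hp
        exact absurd hp (Nat.not_lt_zero _)
      exact hB.J1p p (xlt p h2) j h1 hj hp
    · intro i q x hx
      simp only [stOf, zcOf, List.mem_toFinset, List.mem_map, List.mem_filter,
          decide_eq_true_eq] at hx
      obtain ⟨⟨i', q', x'⟩, ⟨h1, h2, h3⟩, h4⟩ := hx
      simp only at h2 h3 h4
      subst h2 h3 h4
      exact hB.JZ _ h1 (Nat.succ_pos _)
    · intro n; exact (hcnt n).le
    · intro x hx; exact hB.M_lt x (by simpa [stOf] using hx)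
    · intro x hx; exact hB.U_lt x (by simpa [stOf] using hx)
    · intro p l h1 h2
      have h3 : 0 < zOf h p := by
        by_contra hcon
        have h3 : zOf h p = 0 := by omega
        have h4 : (stOf h d).z p = 0 := h3
        rw [h4, Nat.zero_div] at h2
        exact absurd h2 (Nat.not_lt_zero _)
      have h4 : l < zOf h p := lt_of_div_lt (P := P0) (i := 0) h2
      have h5 := zlt p
      exact hB.J2 p (xlt p h3) l (by omega) h1 h2
    · intro p j hj hp
      have h1 := hjT p _ j (zlt p) hp
      have h2 : 0 < zOf h p := by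
        by_contra hcon
        have h3 : zOf h p = 0 := by omega
        have h4 : (stOf h d).z p = 0 := h3
        rw [h4, Nat.zero_div] at hp
        exact absurd hp (Nat.not_lt_zero _)
      exact hB.J1z p (xlt p h2) j h1 hj hp

end Pool.Agent.Helper542.RK
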