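import Pool.Agent.Helper923.RK.Right

set_option autoImplicit false

namespace Pool.Agent.Helper542.RK

open Finset

variable {P : Par}

theorem Par.L0_ge (P : Par) : 16 ≤ P.L 0 := by
  have h1 := P.hphi4 0
  have h2 := P.hphi 0
  have h3 := P.phi_nonneg 0
  have h4 := P.hf1 0 (P.phi 0) h3
  have h5 := P.hf1 0 (4 * P.phi 0) (by linarith)
  have h6 := P.hconv 0 (4 * P.phi 0) (P.phi 0) (by linarith) h3
  have h7 := P.hgf 0 (4 * P.phi 0) (by linarith)
  have h8 := P.hlam0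
  have h9 := P.hN 0
  have h10 : (2:ℚ) ≤ P.N 0 := by exact_mod_cast h9
  have h11 := P.w_pos 0
  have h12 : (0:ℚ) ≤ P.w 0 * (2 * ((P.Z 0 * P.L 0 : ℕ) : ℚ)) := by positivity
  have h13 : 2 * P.f 0 (P.phi 0) ≤ P.phi (0+1) := by
    rw [h2]
    have : 2 * P.f 0 (P.phi 0) ≤ P.N 0 * P.f 0 (P.phi 0) :=
      mul_le_mul_of_nonneg_right h10 (by linarith)
    linarith
  have h14 := P.hphi0
  have h15 : P.f 0 (4 * P.phi 0) - P.f 0 (P.phi 0) ≤ P.g 0 (4 * P.phi 0) * (3 * P.phi 0) := by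
    linarith
  have h16 : P.g 0 (4 * P.phi 0) * (3 * P.phi 0) ≤
      (P.lam 0 * P.f 0 (4 * P.phi 0)) * (3 * P.phi 0) :=
    mul_le_mul_of_nonneg_right h7 (by linarith)
  by_contra hcon
  push Not at hcon
  have h17 : ((P.L 0 : ℕ) : ℚ) ≤ 16 := by exact_mod_cast hcon.le
  have h18 : P.phi 0 ≤ 1 := by rw [h14]; linarith
  have h19 : (P.lam 0 * P.f 0 (4 * P.phi 0)) * (3 * P.phi 0) ≤
      (1 / 2 ^ 10 * P.f 0 (4 * P.phi 0)) * (3 * 1) := by
    apply mul_le_mul _ (by linarith) (by linarith)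
    · apply mul_nonneg (by norm_num) (by linarith)
    · exact mul_le_mul_of_nonneg_right h8 (by linarith)
  norm_num at h19 h1
  linarith

/-- few marks in a leaf -/
theorem Inv.marks_le {T : ℕ} {st : St} (hI : Inv P T st) {x : ℕ} (hx : x < P.L T) :
    4 * (st.M ∩ win P 0 (x / P.L 0)).card ≤ P.L 0 := by
  have h1 := hI.Phi_le 0 (Nat.zero_le _) x hx
  rw [Phi_zero, P.hphi0] at h1
  have h2 : ∑ y ∈ (win P 0 (x / P.L 0)).filter (fun y => ¬ (y / P.L 0 < st.z y / P.L 0)), st.al y ≤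
      (P.L 0 : ℚ) / 16 := by
    have h2 := Finset.sum_le_card_nsmul ((win P 0 (x / P.L 0)).filter
      (fun x => ¬ (x / P.L 0 < st.z x / P.L 0))) st.al (1/16) (fun x _ => hI.toBase.al1 x)
    rw [nsmul_eq_mul] at h2
    have h3 := Finset.card_filter_le (win P 0 (x / P.L 0)) (fun x => ¬ (x / P.L 0 < st.z x / P.L 0))
    rw [card_win] at h3
    have h4 : ((((win P 0 (x / P.L 0)).filter
      (fun x => ¬ (x / P.L 0 < st.z x / P.L 0))).card : ℕ) : ℚ) ≤ P.L 0 := by exact_mod_cast h3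
    linarith
  have h3 : (4:ℚ) * (st.M ∩ win P 0 (x / P.L 0)).card ≤ P.L 0 := by linarith
  exact_mod_cast h3

theorem Inv.free_even {T : ℕ} {st : St} (hI : Inv P T st) {x : ℕ} (hx : x < P.L T) :
    ∃ e, e / P.L 0 = x / P.L 0 ∧ Even e ∧ 0 < e ∧ e ∉ st.M := by
  have h1 := hI.marks_le hx
  have h2 := P.L0_ge
  obtain ⟨l, hl⟩ := P.heven
  set q := x / P.L 0 with hq
  by_contra hcon
  push Not at hcon
  -- the positive even numbers of the leaf
  have h3 : (Finset.Ico 1 l).image (fun j => q * P.L 0 + 2 * j) ⊆ st.M ∩ win P 0 q := by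
    intro y hy
    rw [Finset.mem_image] at hy
    obtain ⟨j, hj, rfl⟩ := hy
    rw [Finset.mem_Ico] at hj
    have h4 : (q * P.L 0 + 2 * j) / P.L 0 = q := by
      rw [mul_comm q, Nat.mul_add_div P.hL0, Nat.div_eq_of_lt (by omega), add_zero]
    rw [Finset.mem_inter, mem_win]
    refine ⟨?_, h4⟩
    apply hcon _ h4
    · rw [hl]
      exact ⟨q * l + j, by ring⟩
    · omega
  have h4 := Finset.card_le_card h3
  rw [Finset.card_image_of_injective _ (fun i j hij => by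
    change q * P.L 0 + 2 * i = q * P.L 0 + 2 * j at hij; omega), Nat.card_Ico] at h4
  omega

theorem S_congr {st : St} (T : ℕ) {x y : ℕ} (h : x / P.L 0 = y / P.L 0) :
    S P st T x = S P st T y := by
  rw [S_split (Nat.zero_le T), S_split (Nat.zero_le T), S_zero, S_zero, Pi_congr h]

/-- geometry of a main type reply -/
structure MG (P : Par) (T : ℕ) (st : St) (n c a b : ℕ) : Prop where
  hc : 1 ≤ c
  hcT : c ≤ T
  ha : P.L 0 ∣ a
  hb : P.L 0 ∣ b
  hab : a < b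
  hbT : b ≤ P.L T
  hwin : ∀ x, a ≤ x → x < b → x / P.L c = a / P.L c
  t1 : ∃ t, vis st n t ∧ t ≤ a
  tK : ∃ t, vis st n t ∧ b ≤ t
  hcard : P.k ≤ ((Finset.Ico a b).filter (fun x => vis st n x)).card
  geo : ∀ x j, a ≤ x → x < b → j + 1 < c → ∃ y0, P.L j ∣ y0 ∧ a ≤ y0 ∧ y0 + P.Z j * P.L j ≤ b ∧
    ∀ y, y0 ≤ y → y < y0 + P.Z j * P.L j → y / P.L (j+1) = x / P.L (j+1)

/-- the typical bound -/
def Ct (P : Par) : ℕ → ℚ
  | 0 => 1
  | (j+1) => Cc P j * (P.lam j * P.typ j)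

theorem MG.bn {T : ℕ} {st : St} {n c a b : ℕ} (h : MG P T st n c a b) : b < n := by
  obtain ⟨t, ht, hbt⟩ := h.tK
  exact lt_of_le_of_lt hbt ht.1

theorem MG.m_le {T : ℕ} {st : St} {n c a b : ℕ} (h : MG P T st n c a b) (hI : Inv P T st) {m : ℚ}
    (hm : ∀ x, a ≤ x → x < b → m ≤ S P st T x) {x j : ℕ} (hax : a ≤ x) (hxb : x < b)
    (hj : j + 1 < c) :
    m ≤ Ct P (j+1) * Pi' P st (j+1) T x := by
  obtain ⟨y0, hy0, hay, hyb, hy⟩ := h.geo x j hax hxb hj
  obtain ⟨y, h1, h2, h3, h4, h5⟩ := hI.typical (i := j) (x := x) (by have := h.hcT; omega)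
    (by have := h.hbT; omega) y0 hy0 hy
  have h6 := hm y (by omega) (by omega)
  have hjT : j + 1 ≤ T := by have := h.hcT; omega
  rw [S_split hjT, S_succ] at h6
  have hb := hI.toBase
  have h7 := hb.Gle j (y / P.L j)
  have h8 := hb.Gpos j (y / P.L j)
  have h9 := hb.S_pos j y
  have h10 := hb.Pi_pos (j+1) T y
  have h11 := P.hlam j
  rw [← Pi_congr h3]
  refine h6.trans ?_
  apply mul_le_mul_of_nonneg_right _ h10.le
  have h12 : Gs P st j (y / P.L j) ≤ P.lam j * P.typ j :=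
    h7.trans (mul_le_mul_of_nonneg_left h4 h11.le)
  calc Gs P st j (y / P.L j) * S P st j y ≤ (P.lam j * P.typ j) * Cc P j :=
        mul_le_mul h12 h5 h9.le (h8.le.trans h12)
    _ = Ct P (j+1) := by rw [Ct]; ring

/-- a visible token in `[a,b)` and stored amounts -/
theorem vis_al {T : ℕ} {st : St} {n c a b : ℕ} (h : MG P T st n c a b) (hI : Inv P T st) {x l : ℕ}
    (hv : vis st n x) (hxl : x / P.L 0 ≤ l / P.L 0) (hlb : l < b) :
    P.G2 * st.al x * S P st T x ≤ S P st T l := by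
  rcases hv.2 with hU | hz
  · have h1 := hI.toBase.alz x (hI.toBase.Uz x hU)
    rw [h1]
    have := hI.toBase.S_pos T l
    simp only [mul_zero, zero_mul]
    exact this.le
  · apply hI.J2 x l hxl
    obtain ⟨b', hb'⟩ := h.hb
    have h1 : l / P.L 0 < b / P.L 0 := by
      rw [hb', Nat.mul_div_cancel_left _ P.hL0]
      apply Nat.div_lt_of_lt_mul
      rw [← hb']; exact hlb
    have h2 : b / P.L 0 ≤ st.z x / P.L 0 := Nat.div_le_div_right (by have := h.bn; omega)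
    omega

theorem vis_znew {st : St} {n e x : ℕ} (hv : vis st n x) (he : e < n) : znew st e x = e := by
  unfold znew
  rcases hv.2 with hU | hz
  · rw [if_pos hU]
  · split_ifs
    · rfl
    · exact min_eq_right (by omega)

end Pool.Agent.Helper542.RK
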