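import Pool.Agent.Helper923.RK.MainA

set_option autoImplicit false

namespace Pool.Agent.Helper542.RK

open Finset

variable {P : Par}

/-! ### tokens which do not pay -/

theorem znew_of_not_U {st : St} {e x : ℕ} (h : x ∉ st.U) : znew st e x = min (st.z x) e := by
  unfold znew; rw [if_neg h]

theorem al_U {st : St} (hb : Base P st) {x : ℕ} (h : x ∈ st.U) : st.al x = 0 :=
  hb.alz x (hb.Uz x h)

theorem npm_al2 {st : St} (hb : Base P st) {e p : ℕ}
    (hp : p / P.L 0 < znew st e p / P.L 0) : P.G2 * st.al p ≤ 1 := by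
  by_cases hU : p ∈ st.U
  · rw [al_U hb hU]; simp
  · rw [znew_of_not_U hU] at hp
    apply hb.al2
    exact lt_of_lt_of_le hp (Nat.div_le_div_right (min_le_left _ _))

theorem npm_J2 {T : ℕ} {st : St} (hI : Inv P T st) {e p l : ℕ} (h1 : p / P.L 0 ≤ l / P.L 0)
    (hp : l / P.L 0 < znew st e p / P.L 0) :
    P.G2 * st.al p * S P st T p ≤ S P st T l := by
  by_cases hU : p ∈ st.U
  · rw [al_U hI.toBase hU]
    have := hI.toBase.S_pos T l
    simp only [mul_zero, zero_mul]
    exact this.le
  · rw [znew_of_not_U hU] at hp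
    apply hI.J2 _ _ h1
    exact lt_of_lt_of_le hp (Nat.div_le_div_right (min_le_left _ _))

theorem npm_J1p {st : St} (hb : Base P st) {e p j : ℕ} (hj : 1 ≤ j)
    (hp : p / P.L j < znew st e p / P.L j) :
    st.al p * S P st (j+1) p ≤ P.eps j * F P st j (p / P.L j) := by
  by_cases hU : p ∈ st.U
  · rw [al_U hb hU, zero_mul]
    exact mul_nonneg (P.heps j).le (hb.Fpos j _).le
  · rw [znew_of_not_U hU] at hp
    apply hb.J1p _ _ hj
    exact lt_of_lt_of_le hp (Nat.div_le_div_right (min_le_left _ _))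

theorem npm_J1z {T : ℕ} {st : St} (hI : Inv P T st) {e p j : ℕ} (heT : e < P.L T) (hj : 1 ≤ j)
    (hp : p / P.L j < znew st e p / P.L j) :
    st.al p * S P st T p ≤
      P.eps j * (F P st j (znew st e p / P.L j) * Pi' P st (j+1) T (znew st e p)) := by
  have hb := hI.toBase
  by_cases hU : p ∈ st.U
  · rw [al_U hb hU, zero_mul]
    exact mul_nonneg (P.heps j).le (mul_nonneg (hb.Fpos j _).le (hb.Pi_pos _ _ _).le)
  · rw [znew_of_not_U hU] at hp ⊢
    rcases le_total (st.z p) e with hz | hz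
    · rw [min_eq_left hz] at hp ⊢
      exact hI.J1z p j hj hp
    · rw [min_eq_right hz] at hp ⊢
      rcases (Nat.div_le_div_right (c := P.L j) hz).eq_or_lt with h1 | h1
      · have h2 := hI.J1z p j hj (by rw [← h1]; exact hp)
        rw [← h1, ← Pi_congr (div_eq_of_le (Nat.le_succ j) h1)] at h2
        exact h2
      · -- the window of `e` lies inside
        have hjT : j < T := by
          by_contra hcon
          push Not at hcon
          have h3 : e / P.L j = 0 := by
            apply Nat.div_eq_of_lt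
            refine lt_of_lt_of_le heT ?_
            clear * - hcon
            induction j, hcon using Nat.le_induction with
            | base => exact le_rfl
            | succ j _ ih =>
              rw [P.hL]
              exact ih.trans (Nat.le_mul_of_pos_right _ (P.Npos j))
          rw [h3] at hp
          exact absurd hp (Nat.not_lt_zero _)
        obtain ⟨y, hy1, hy2, hy3⟩ := hI.cold j hjT.le e heT
        have h4 : p / P.L 0 ≤ y / P.L 0 := by
          have : p / P.L j < y / P.L j := by rw [hy1]; exact hp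
          exact (div_lt_anti (Nat.zero_le j) this).le
        have h5 : y / P.L 0 < st.z p / P.L 0 := by
          have : y / P.L j < st.z p / P.L j := by rw [hy1]; exact h1
          exact div_lt_anti (Nat.zero_le j) this
        have h6 := hI.J2 p y h4 h5
        rw [S_split hjT.le y, Pi_congr hy1, Pi_split hjT] at h6
        have h7 := hb.Gle j (e / P.L j)
        have h8 := hb.Gpos j (e / P.L j)
        have h9 := hb.Fpos j (e / P.L j)
        have h10 := hb.Pi_pos (j+1) T e
        have h11 : P.lam j * Cc P j ≤ P.eps j * P.G2 := by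
          obtain ⟨i, rfl⟩ : ∃ i, j = i + 1 := ⟨j - 1, by omega⟩
          exact P.hJ2 i
        have h12 := hb.S_pos j y
        have h13 := P.hG2
        have h14 : S P st j y * (Gs P st j (e / P.L j) * Pi' P st (j+1) T e) ≤
            Cc P j * ((P.lam j * F P st j (e / P.L j)) * Pi' P st (j+1) T e) := by
          apply mul_le_mul hy3 _ (by positivity) (Cc_pos P j).le
          exact mul_le_mul_of_nonneg_right h7 h10.le
        have h15 : Cc P j * ((P.lam j * F P st j (e / P.L j)) * Pi' P st (j+1) T e) ≤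
            (P.eps j * P.G2) * (F P st j (e / P.L j) * Pi' P st (j+1) T e) := by
          calc Cc P j * ((P.lam j * F P st j (e / P.L j)) * Pi' P st (j+1) T e)
              = (P.lam j * Cc P j) * (F P st j (e / P.L j) * Pi' P st (j+1) T e) := by ring
            _ ≤ _ := mul_le_mul_of_nonneg_right h11 (by positivity)
        have h16 : P.G2 * (st.al p * S P st T p) ≤
            P.G2 * (P.eps j * (F P st j (e / P.L j) * Pi' P st (j+1) T e)) := by
          calc P.G2 * (st.al p * S P st T p) = P.G2 * st.al p * S P st T p := by ring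
            _ ≤ (P.eps j * P.G2) * (F P st j (e / P.L j) * Pi' P st (j+1) T e) :=
              h6.trans (h14.trans h15)
            _ = _ := by ring
        exact le_of_mul_le_mul_left h16 h13

/-! ### the payments -/

theorem Ct_bound (P : Par) (j : ℕ) :
    P.lam (j+1) * Ct P (j+1) * (P.K * P.G2) ≤ 1 / 2 ^ (j + 13) := by
  cases j with
  | zero =>
    have := P.htypC0
    simpa [Ct, Cc] using this
  | succ j =>
    have := P.htypC j
    have e : P.lam (j+1+1) * Ct P (j+1+1) * (P.K * P.G2) =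
        P.lam (j+2) * (P.w j * P.lam (j+1) * P.typ (j+1)) * (P.K * P.G2) := by
      rw [Ct, Cc]; ring
    rw [e]
    exact this

theorem Ct_pos (P : Par) (j : ℕ) : 0 < Ct P j := by
  cases j with
  | zero => simp [Ct]
  | succ j =>
    rw [Ct]
    have h1 := Cc_pos P j
    have h2 := P.hlam j
    have h3 := P.htyp1 j
    positivity

theorem one_le_K (P : Par) : (1:ℚ) ≤ P.K := by exact_mod_cast P.hK

theorem lam_Ct_K (P : Par) (j : ℕ) : P.lam (j+1) * Ct P (j+1) * P.K ≤ 1 / 2 ^ (j + 13) := by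
  have h1 := Ct_bound P j
  have h2 := Ct_pos P (j+1)
  have h3 := P.hlam (j+1)
  have h4 := one_le_K P
  have h5 := P.hG2a
  refine le_trans ?_ h1
  have h6 : 0 ≤ P.lam (j+1) * Ct P (j+1) * P.K := by positivity
  nlinarith

theorem lam_Ct_G2 (P : Par) (j : ℕ) : P.lam (j+1) * Ct P (j+1) * P.G2 ≤ 1 / 2 ^ (j + 13) := by
  have h1 := Ct_bound P j
  have h2 := Ct_pos P (j+1)
  have h3 := P.hlam (j+1)
  have h4 := one_le_K P
  have h5 := P.hG2a
  refine le_trans ?_ h1
  have h6 : 0 ≤ P.lam (j+1) * Ct P (j+1) * P.G2 := by positivity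
  nlinarith

theorem lam_Ct_eps (P : Par) (j : ℕ) : P.lam (j+1) * Ct P (j+1) ≤ P.eps (j+1) := by
  have h1 := lam_Ct_K P j
  have h2 := P.heps_def (j+1)
  have h4 := one_le_K P
  have h5 : (1:ℚ) / 2 ^ (j+13) ≤ 1 / 2 ^ (j+1+10) := by
    apply div_le_div_of_nonneg_left (by norm_num) (by positivity)
    exact pow_le_pow_right₀ (by norm_num) (by omega)
  have h6 : P.eps (j+1) * P.K = 1 / 2 ^ (j+1+10) := by
    rw [eq_div_iff (by positivity)]
    rw [← h2]; ring
  have h7 : P.lam (j+1) * Ct P (j+1) * P.K ≤ P.eps (j+1) * P.K := by rw [h6]; exact h1.trans h5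
  exact le_of_mul_le_mul_right h7 (by linarith)

/-- the payments -/
def pv (P : Par) (T : ℕ) (st : St) (n a b e : ℕ) (m : ℚ) (x : ℕ) : ℚ :=
  if vis st n x ∧ a ≤ x ∧ x < b then
    (if x / P.L 0 < e / P.L 0 then m / (32 * S P st T x) - st.al x
     else if e / P.L 0 < x / P.L 0 then (P.b0 : ℚ) / P.L 0 * (m / (64 * S P st T x)) else 0)
  else 0

structure MR (P : Par) (T : ℕ) (st : St) (n c a b e : ℕ) (m : ℚ) : Prop where
  g : MG P T st n c a b
  hI : Inv P T st
  hae : a ≤ e
  heb : e < b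
  he0 : 0 < e
  heM : e ∉ st.M
  hm0 : 0 < m
  hm : ∀ x, a ≤ x → x < b → m ≤ S P st T x
  x1 : ∃ x1, a ≤ x1 ∧ x1 < b ∧ S P st T x1 = m ∧ e / P.L 0 ≤ x1 / P.L 0
  hlow : ∀ x, a ≤ x → x / P.L 0 < e / P.L 0 → P.G2 / 32 * m < S P st T x
  hte : S P st T e ≤ P.G2 / 32 * m

variable {T : ℕ} {st : St} {n c a b e : ℕ} {m : ℚ}

theorem MR.al_left (h : MR P T st n c a b e m) {x : ℕ} (hv : vis st n x)
    (hx : x / P.L 0 < e / P.L 0) : P.G2 * st.al x * S P st T x ≤ m := by
  obtain ⟨x1, h1, h2, h3, h4⟩ := h.x1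
  rw [← h3]
  exact vis_al h.g h.hI hv (by omega) h2

theorem MR.al_right (h : MR P T st n c a b e m) {x : ℕ} (hv : vis st n x) (hxb : x < b) :
    P.G2 * st.al x ≤ 1 := by
  have h1 := vis_al h.g h.hI hv le_rfl hxb
  have h2 := h.hI.toBase.S_pos T x
  have h3 : P.G2 * st.al x * S P st T x ≤ 1 * S P st T x := by linarith
  exact le_of_mul_le_mul_right h3 h2

theorem MR.left_lt (h : MR P T st n c a b e m) {x : ℕ} (hx : x / P.L 0 < e / P.L 0) : x < b := by
  have := lt_of_div_lt hx
  have := h.heb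
  omega

theorem MR.en (h : MR P T st n c a b e m) : e < n := by
  have := h.g.bn
  have := h.heb
  omega

theorem MR.pv_left (h : MR P T st n c a b e m) {x : ℕ} (hv : vis st n x) (hax : a ≤ x)
    (hx : x / P.L 0 < e / P.L 0) :
    pv P T st n a b e m x = m / (32 * S P st T x) - st.al x := by
  unfold pv
  rw [if_pos ⟨hv, hax, h.left_lt hx⟩, if_pos hx]

theorem MR.v0 (h : MR P T st n c a b e m) (x : ℕ) : 0 ≤ pv P T st n a b e m x := by
  have hS := h.hI.toBase.S_pos T x
  have hm := h.hm0
  unfold pv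
  split_ifs with h1 h2 h3
  · have h4 := h.al_left h1.1 h2
    have h5 := P.hG2a
    have h6 := h.hI.toBase.al0 x
    rw [sub_nonneg, le_div_iff₀ (by positivity)]
    have h7 : 0 ≤ st.al x * S P st T x := by positivity
    nlinarith
  · positivity
  · exact le_rfl
  · exact le_rfl

theorem MR.cases (h : MR P T st n c a b e m) {p : ℕ} (hp : p / P.L 0 < znew st e p / P.L 0) :
    pv P T st n a b e m p = 0 ∨ (vis st n p ∧ a ≤ p ∧ p / P.L 0 < e / P.L 0 ∧ znew st e p = e ∧
      (st.al p + pv P T st n a b e m p) * S P st T p = m / 32) := by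
  by_cases h1 : vis st n p ∧ a ≤ p ∧ p < b
  · right
    have h2 := vis_znew h1.1 h.en
    rw [h2] at hp
    refine ⟨h1.1, h1.2.1, hp, h2, ?_⟩
    rw [h.pv_left h1.1 h1.2.1 hp]
    have hS := h.hI.toBase.S_pos T p
    field_simp
    ring
  · left
    unfold pv
    rw [if_neg h1]

theorem MR.b1 (h : MR P T st n c a b e m) (x : ℕ) :
    st.al x + pv P T st n a b e m x ≤ 1 / 16 := by
  have hS := h.hI.toBase.S_pos T x
  have hm := h.hm0
  have hal := h.hI.toBase.al0 x
  unfold pv
  split_ifs with h1 h2 h3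
  · have h4 := h.hm x h1.2.1 h1.2.2
    have h5 : m / (32 * S P st T x) ≤ 1 / 32 := by
      rw [div_le_div_iff₀ (by positivity) (by norm_num)]
      linarith
    linarith
  · have h4 := h.hm x h1.2.1 h1.2.2
    have h5 : m / (64 * S P st T x) ≤ 1 / 64 := by
      rw [div_le_div_iff₀ (by positivity) (by norm_num)]
      linarith
    have h6 := h.al_right h1.1 h1.2.2
    have h7 := P.hG2a
    have h8 : st.al x ≤ 1 / 64 := by nlinarith
    have h9 : (P.b0 : ℚ) / P.L 0 ≤ 1 := by
      rw [div_le_one (by exact_mod_cast P.hL0)]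
      exact_mod_cast P.hb0L
    have h10 : (P.b0 : ℚ) / P.L 0 * (m / (64 * S P st T x)) ≤ 1 * (1 / 64) :=
      mul_le_mul h9 h5 (by positivity) (by norm_num)
    linarith
  · have := h.hI.toBase.al1 x; linarith
  · have := h.hI.toBase.al1 x; linarith

theorem MR.ge_a (h : MR P T st n c a b e m) {p l : ℕ} (hp : a ≤ p) (hl : p / P.L 0 ≤ l / P.L 0) :
    a ≤ l := by
  obtain ⟨a', ha'⟩ := h.g.ha
  have h1 : a' ≤ p / P.L 0 := by
    rw [Nat.le_div_iff_mul_le P.hL0, mul_comm, ← ha']; exact hp
  have h2 : a' * P.L 0 ≤ l := (Nat.le_div_iff_mul_le P.hL0).1 (h1.trans hl)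
  rw [ha', mul_comm]
  exact h2

/-- different windows of class `j` inside `[a,b)` -/
theorem MR.jc (h : MR P T st n c a b e m) {x j : ℕ} (hax : a ≤ x) (hxb : x < b)
    (hne : x / P.L j ≠ e / P.L j) : j < c := by
  by_contra hcon
  push Not at hcon
  apply hne
  apply div_eq_of_le hcon
  rw [h.g.hwin x hax hxb, h.g.hwin e h.hae h.heb]

theorem MR.m_le (h : MR P T st n c a b e m) {x j : ℕ} (hax : a ≤ x) (hxb : x < b)
    (hj : j + 1 < c) : m ≤ Ct P (j+1) * Pi' P st (j+1) T x :=
  h.g.m_le h.hI h.hm hax hxb hj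

theorem MR.J1z (h : MR P T st n c a b e m) (p j : ℕ) (hj : 1 ≤ j)
    (hp : p / P.L j < znew st e p / P.L j) :
    (st.al p + pv P T st n a b e m p) * S P st T p ≤
      P.eps j * (F P st j (znew st e p / P.L j) * Pi' P st (j+1) T (znew st e p)) := by
  have hb := h.hI.toBase
  have heT : e < P.L T := lt_of_lt_of_le h.heb h.g.hbT
  rcases h.cases (div_lt_anti (Nat.zero_le j) hp) with h1 | ⟨hv, hap, hlt, hz, heq⟩
  · rw [h1, add_zero]
    exact npm_J1z h.hI heT hj hp
  · rw [hz] at hp ⊢
    rw [heq]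
    have hjc := h.jc hap (h.left_lt hlt) hp.ne
    obtain ⟨i, rfl⟩ : ∃ i, j = i + 1 := ⟨j - 1, by omega⟩
    have h2 := h.m_le h.hae h.heb hjc
    have hiT : i + 1 < T := by have := h.g.hcT; omega
    rw [Pi_split hiT] at h2
    have h3 := hb.Gle (i+1) (e / P.L (i+1))
    have h4 := hb.Pi_pos (i+1+1) T e
    have h5 := Ct_pos P (i+1)
    have h6 := hb.Fpos (i+1) (e / P.L (i+1))
    have h7 := lam_Ct_eps P i
    have h8 : m ≤ P.eps (i+1) * (F P st (i+1) (e / P.L (i+1)) * Pi' P st (i+1+1) T e) := by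
      calc m ≤ Ct P (i+1) * (Gs P st (i+1) (e / P.L (i+1)) * Pi' P st (i+1+1) T e) := h2
        _ ≤ Ct P (i+1) * ((P.lam (i+1) * F P st (i+1) (e / P.L (i+1))) * Pi' P st (i+1+1) T e) := by
            apply mul_le_mul_of_nonneg_left _ h5.le
            exact mul_le_mul_of_nonneg_right h3 h4.le
        _ = (P.lam (i+1) * Ct P (i+1)) * (F P st (i+1) (e / P.L (i+1)) * Pi' P st (i+1+1) T e) := by
            ring
        _ ≤ _ := mul_le_mul_of_nonneg_right h7 (by positivity)
    have := h.hm0
    linarith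

theorem MR.J1p (h : MR P T st n c a b e m) (p j : ℕ) (hj : 1 ≤ j)
    (hp : p / P.L j < znew st e p / P.L j) :
    (st.al p + pv P T st n a b e m p) * S P st (j+1) p ≤ P.eps j * F P st j (p / P.L j) := by
  have hb := h.hI.toBase
  rcases h.cases (div_lt_anti (Nat.zero_le j) hp) with h1 | ⟨hv, hap, hlt, hz, heq⟩
  · rw [h1, add_zero]
    exact npm_J1p hb hj hp
  · rw [hz] at hp
    have hjc := h.jc hap (h.left_lt hlt) hp.ne
    obtain ⟨i, rfl⟩ : ∃ i, j = i + 1 := ⟨j - 1, by omega⟩
    have h2 := h.m_le hap (h.left_lt hlt) hjc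
    have hiT : i + 1 < T := by have := h.g.hcT; omega
    rw [Pi_split hiT] at h2
    rw [S_split (show i+1+1 ≤ T by omega)] at heq
    have h3 := hb.Gle (i+1) (p / P.L (i+1))
    have h4 := hb.Pi_pos (i+1+1) T p
    have h5 := Ct_pos P (i+1)
    have h6 := hb.Fpos (i+1) (p / P.L (i+1))
    have h7 := lam_Ct_eps P i
    have hm0 := h.hm0
    have h8 : (st.al p + pv P T st n a b e m p) * S P st (i+1+1) p * Pi' P st (i+1+1) T p ≤
        P.eps (i+1) * F P st (i+1) (p / P.L (i+1)) * Pi' P st (i+1+1) T p := by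
      calc (st.al p + pv P T st n a b e m p) * S P st (i+1+1) p * Pi' P st (i+1+1) T p
          = m / 32 := by rw [← heq]; ring
        _ ≤ m := by linarith
        _ ≤ Ct P (i+1) * (Gs P st (i+1) (p / P.L (i+1)) * Pi' P st (i+1+1) T p) := h2
        _ ≤ Ct P (i+1) * ((P.lam (i+1) * F P st (i+1) (p / P.L (i+1))) * Pi' P st (i+1+1) T p) := by
            apply mul_le_mul_of_nonneg_left _ h5.le
            exact mul_le_mul_of_nonneg_right h3 h4.le
        _ = (P.lam (i+1) * Ct P (i+1)) * (F P st (i+1) (p / P.L (i+1)) * Pi' P st (i+1+1) T p) := by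
            ring
        _ ≤ P.eps (i+1) * (F P st (i+1) (p / P.L (i+1)) * Pi' P st (i+1+1) T p) :=
            mul_le_mul_of_nonneg_right h7 (by positivity)
        _ = _ := by ring
    exact le_of_mul_le_mul_right h8 h4

theorem MR.pay_term0 (h : MR P T st n c a b e m) {x : ℕ} (hx : e / P.L 0 < x / P.L 0) :
    pv P T st n a b e m x ≤ (P.b0 : ℚ) / P.L 0 * (1 / 64) := by
  have hS := h.hI.toBase.S_pos T x
  have hm := h.hm0
  unfold pv
  split_ifs with h1 h2
  · omega
  · have h4 := h.hm x h1.2.1 h1.2.2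
    have h5 : m / (64 * S P st T x) ≤ 1 / 64 := by
      rw [div_le_div_iff₀ (by positivity) (by norm_num)]
      linarith
    exact mul_le_mul_of_nonneg_left h5 (by positivity)
  · positivity

theorem MR.pay0 (h : MR P T st n c a b e m) (q : ℕ) (hq : e / P.L 0 < q) :
    P.lam 0 * pay P st (pv P T st n a b e m) 0 q ≤ 1 / 8 := by
  have h1 : pay P st (pv P T st n a b e m) 0 q ≤ (P.b0 : ℚ) / 64 := by
    unfold pay
    have h2 : ∀ x ∈ win P 0 q, pv P T st n a b e m x * S P st 0 x ≤
        (P.b0 : ℚ) / P.L 0 * (1 / 64) := by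
      intro x hx
      rw [mem_win] at hx
      rw [S_zero, mul_one]
      exact h.pay_term0 (by omega)
    have h3 := Finset.sum_le_card_nsmul _ _ _ h2
    rw [nsmul_eq_mul, card_win] at h3
    have h4 : ((P.L 0 : ℕ) : ℚ) ≠ 0 := by exact_mod_cast P.hL0.ne'
    have h5 : (P.L 0 : ℚ) * ((P.b0 : ℚ) / P.L 0 * (1 / 64)) = (P.b0 : ℚ) / 64 := by
      field_simp
    linarith
  have h2 := P.hlam 0
  have h3 := P.hb0
  have h4 : P.lam 0 * pay P st (pv P T st n a b e m) 0 q ≤ P.lam 0 * ((P.b0 : ℚ) / 64) :=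
    mul_le_mul_of_nonneg_left h1 h2.le
  have h5 : P.lam 0 * ((P.b0 : ℚ) / 64) = (P.lam 0 * P.b0) / 64 := by ring
  linarith

theorem MR.pay1 (h : MR P T st n c a b e m) (i q : ℕ) (hq : e / P.L (i+1) < q) :
    P.lam (i+1) * pay P st (pv P T st n a b e m) (i+1) q ≤ 1 / 2 ^ (i + 12) := by
  have hb := h.hI.toBase
  have hm0 := h.hm0
  have hCt := Ct_pos P (i+1)
  have h1 : pay P st (pv P T st n a b e m) (i+1) q ≤ P.K * (Ct P (i+1) / 64) := by
    unfold pay
    have h2 : ∀ x ∈ win P (i+1) q, x ∉ (Finset.range n).filter (fun x => vis st n x) →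
        pv P T st n a b e m x * S P st (i+1) x = 0 := by
      intro x _ hx
      have : ¬ (vis st n x ∧ a ≤ x ∧ x < b) := by
        intro hcon
        apply hx
        rw [Finset.mem_filter, Finset.mem_range]
        exact ⟨hcon.1.1, hcon.1⟩
      unfold pv
      rw [if_neg this, zero_mul]
    have h3 : ∑ x ∈ win P (i+1) q, pv P T st n a b e m x * S P st (i+1) x =
        ∑ x ∈ (win P (i+1) q).filter (fun x => x ∈ (Finset.range n).filter (fun x => vis st n x)),
          pv P T st n a b e m x * S P st (i+1) x := by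
      symm
      apply Finset.sum_filter_of_ne
      intro x hx hne
      by_contra hcon
      exact hne (h2 x hx hcon)
    rw [h3]
    have h4 : ∀ x ∈ (win P (i+1) q).filter
        (fun x => x ∈ (Finset.range n).filter (fun x => vis st n x)),
        pv P T st n a b e m x * S P st (i+1) x ≤ Ct P (i+1) / 64 := by
      intro x hx
      rw [Finset.mem_filter, mem_win] at hx
      have hx0 : e / P.L 0 < x / P.L 0 :=
        div_lt_anti (i := 0) (j := i+1) (Nat.zero_le _) (by rw [hx.1]; exact hq)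
      unfold pv
      split_ifs with h5 h6
      · omega
      · have hjc := h.jc h5.2.1 h5.2.2 (j := i+1) (by omega)
        have h7 := h.m_le h5.2.1 h5.2.2 hjc
        have hS := hb.S_pos (i+1) x
        have hPi := hb.Pi_pos (i+1) T x
        have hiT : i + 1 ≤ T := by have := h.g.hcT; omega
        rw [S_split hiT x]
        have h9 : (P.b0 : ℚ) / P.L 0 ≤ 1 := by
          rw [div_le_one (by exact_mod_cast P.hL0)]
          exact_mod_cast P.hb0L
        have e1 : (P.b0 : ℚ) / P.L 0 * (m / (64 * (S P st (i+1) x * Pi' P st (i+1) T x))) *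
            S P st (i+1) x = (P.b0 : ℚ) / P.L 0 * (m / (64 * Pi' P st (i+1) T x)) := by
          field_simp
        rw [e1]
        have h10 : m / (64 * Pi' P st (i+1) T x) ≤ Ct P (i+1) / 64 := by
          rw [div_le_div_iff₀ (by positivity) (by norm_num)]
          linarith
        calc (P.b0 : ℚ) / P.L 0 * (m / (64 * Pi' P st (i+1) T x)) ≤ 1 * (Ct P (i+1) / 64) :=
              mul_le_mul h9 h10 (by positivity) (by norm_num)
          _ = _ := one_mul _
      · rw [zero_mul]; positivity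
    have h5 := Finset.sum_le_card_nsmul _ _ _ h4
    rw [nsmul_eq_mul] at h5
    refine h5.trans ?_
    apply mul_le_mul_of_nonneg_right _ (by positivity)
    have h6 : ((win P (i+1) q).filter
        (fun x => x ∈ (Finset.range n).filter (fun x => vis st n x))).card ≤ P.K := by
      refine le_trans (Finset.card_le_card ?_) (hb.cnt n)
      intro x hx
      rw [Finset.mem_filter] at hx
      exact hx.2
    exact_mod_cast h6
  have h2 := P.hlam (i+1)
  have h3 := lam_Ct_K P i
  have h4 : P.lam (i+1) * pay P st (pv P T st n a b e m) (i+1) q ≤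
      P.lam (i+1) * (P.K * (Ct P (i+1) / 64)) := mul_le_mul_of_nonneg_left h1 h2.le
  have h5 : P.lam (i+1) * (P.K * (Ct P (i+1) / 64)) = (P.lam (i+1) * Ct P (i+1) * P.K) / 64 := by
    ring
  have h6 : (1:ℚ) / 2 ^ (i+13) ≤ 1 / 2 ^ (i+12) := by
    apply div_le_div_of_nonneg_left (by norm_num) (by positivity)
    exact pow_le_pow_right₀ (by norm_num) (by omega)
  have h7 : (0:ℚ) < 1 / 2 ^ (i+13) := by positivity
  linarith

theorem MR.rd (h : MR P T st n c a b e m) : Rd P T st e (pv P T st n a b e m) st.zc := by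
  have hb := h.hI.toBase
  have heT : e < P.L T := lt_of_lt_of_le h.heb h.g.hbT
  refine ⟨h.hI, h.he0, heT, h.heM, h.v0, ?_, h.b1, ?_, ?_, h.J1z, h.J1p, ?_, ?_, ?_, h.pay0, h.pay1⟩
  · intro x hx
    unfold pv at hx
    split_ifs at hx with h1 h2 h3
    · exact ⟨h2.ne, vis_znew h1.1 h.en, lt_of_lt_of_le h1.2.2 h.g.hbT⟩
    · exact ⟨h3.ne', vis_znew h1.1 h.en, lt_of_lt_of_le h1.2.2 h.g.hbT⟩
    · exact absurd rfl hx
    · exact absurd rfl hx
  · intro p hp
    rcases h.cases hp with h1 | ⟨hv, hap, hlt, hz, heq⟩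
    · rw [h1, add_zero]; exact npm_al2 hb hp
    · have h2 := h.hlow p hap hlt
      have h3 := hb.S_pos T p
      have h4 := P.hG2
      have h5 : (P.G2 * (st.al p + pv P T st n a b e m p)) * S P st T p ≤ 1 * S P st T p := by
        calc (P.G2 * (st.al p + pv P T st n a b e m p)) * S P st T p
            = P.G2 * ((st.al p + pv P T st n a b e m p) * S P st T p) := by ring
          _ = P.G2 * (m / 32) := by rw [heq]
          _ = P.G2 / 32 * m := by ring
          _ ≤ 1 * S P st T p := by linarith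
      exact le_of_mul_le_mul_right h5 h3
  · intro p l hpl hp
    rcases h.cases (lt_of_le_of_lt hpl hp) with h1 | ⟨hv, hap, hlt, hz, heq⟩
    · rw [h1, add_zero]; exact npm_J2 h.hI hpl hp
    · rw [hz] at hp
      have h2 := h.hlow l (h.ge_a hap hpl) hp
      calc P.G2 * (st.al p + pv P T st n a b e m p) * S P st T p
          = P.G2 * ((st.al p + pv P T st n a b e m p) * S P st T p) := by ring
        _ = P.G2 * (m / 32) := by rw [heq]
        _ = P.G2 / 32 * m := by ring
        _ ≤ S P st T l := h2.le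
  · intro i q; exact Finset.Subset.refl _
  · intro i q _; rfl
  · intro i q x hx
    obtain ⟨h1, h2, h3⟩ := hb.JZ i q x hx
    have h4 : x ∉ st.U := fun hU => by rw [hb.Uz x hU] at h2; exact lt_irrefl _ h2
    rw [znew_of_not_U h4]
    exact ⟨h1, lt_min h2 h.he0, lt_of_le_of_lt (min_le_left _ _) h3⟩

end Pool.Agent.Helper542.RK
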