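import Pool.Agent.Helper923.RK.Bounded
import Pool.Agent.Helper205.RK.QArith

set_option autoImplicit false

namespace Pool.Agent.Helper542.RK

open Finset Pool.Agent.Helper205.QA

section gen

variable {σ β : Type*} [Primcodable σ] [Primcodable β]

theorem pr_forall_mem {L : σ → List β} {R : σ → β → Prop} (hL : Primrec L)
    (hR : PrimrecPred (fun p : σ × β => R p.1 p.2)) : PrimrecPred (fun s => ∀ x ∈ L s, R s x) := by
  have h1 : PrimrecRel (fun (b : β) (s : σ) => R s b) :=
    hR.comp (Primrec.pair Primrec.snd Primrec.fst)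
  exact (h1.forall_mem_list).comp hL Primrec.id

theorem pr_exists_mem {L : σ → List β} {R : σ → β → Prop} (hL : Primrec L)
    (hR : PrimrecPred (fun p : σ × β => R p.1 p.2)) : PrimrecPred (fun s => ∃ x ∈ L s, R s x) := by
  have h1 : PrimrecRel (fun (b : β) (s : σ) => R s b) :=
    hR.comp (Primrec.pair Primrec.snd Primrec.fst)
  exact (h1.exists_mem_list).comp hL Primrec.id

theorem pr_forall_lt {n : σ → ℕ} {R : σ → ℕ → Prop} (hn : Primrec n)
    (hR : PrimrecPred (fun p : σ × ℕ => R p.1 p.2)) : PrimrecPred (fun s => ∀ x < n s, R s x) := by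
  refine (pr_forall_mem (Primrec.list_range.comp hn) hR).of_eq ?_
  intro s
  simp

theorem pr_exists_lt {n : σ → ℕ} {R : σ → ℕ → Prop} (hn : Primrec n)
    (hR : PrimrecPred (fun p : σ × ℕ => R p.1 p.2)) : PrimrecPred (fun s => ∃ x < n s, R s x) := by
  refine (pr_exists_mem (Primrec.list_range.comp hn) hR).of_eq ?_
  intro s
  simp

theorem pr_imp {p q : σ → Prop} (hp : PrimrecPred p) (hq : PrimrecPred q) :
    PrimrecPred (fun s => p s → q s) := by
  refine (hp.not.or hq).of_eq ?_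
  intro s
  tauto

theorem pr_lt {f g : σ → ℕ} (hf : Primrec f) (hg : Primrec g) :
    PrimrecPred (fun s => f s < g s) := Primrec.nat_lt.comp hf hg
theorem pr_le {f g : σ → ℕ} (hf : Primrec f) (hg : Primrec g) :
    PrimrecPred (fun s => f s ≤ g s) := Primrec.nat_le.comp hf hg
theorem pr_eq {f g : σ → β} (hf : Primrec f) (hg : Primrec g) :
    PrimrecPred (fun s => f s = g s) := Primrec.eq.comp hf hg

theorem pr_mem {L : σ → List β} {f : σ → β} (hL : Primrec L) (hf : Primrec f) :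
    PrimrecPred (fun s => f s ∈ L s) := by
  refine (pr_exists_mem (R := fun s b => b = f s) hL (pr_eq Primrec.snd (hf.comp Primrec.fst))).of_eq ?_
  intro s
  simp

end gen

/-! ### the sequences `N`, `L`, `Z` -/

theorem prim_tC : Primrec tC := prim_mul (prim_const 160) (prim_npow (prim_const 4) Primrec.id)
theorem prim_NC : Primrec NC := prim_npow (prim_const 2) prim_tC
theorem prim_ZC : Primrec ZC :=
  prim_npow (prim_const 2) (prim_mul (prim_const 112) (prim_npow (prim_const 4) Primrec.id))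
theorem prim_LC : Primrec LC := by
  have h2 : Primrec₂ (fun (_ : ℕ) (p : ℕ × ℕ) => p.2 * NC p.1) :=
    prim_mul (Primrec.snd.comp Primrec.snd) (prim_NC.comp (Primrec.fst.comp Primrec.snd))
  have h1 := Primrec.nat_rec' (f := fun i : ℕ => i) (g := fun _ => L0C) Primrec.id
    (Primrec.const _) h2
  refine h1.of_eq ?_
  intro i
  induction i with
  | zero => rfl
  | succ i ih => simp only [LC]; rw [← ih]

/-! ### histories -/

theorem prim_ustep : Primrec₂ (fun (x : ℕ) (p : (List ℕ × ℕ) × (ℕ × Option ℕ)) =>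
    ustep x p.1 p.2) := by
  -- parameters: (x, (s, ar))
  have hx : Primrec (fun q : ℕ × (List ℕ × ℕ) × (ℕ × Option ℕ) => q.1) := Primrec.fst
  have hs1 : Primrec (fun q : ℕ × (List ℕ × ℕ) × (ℕ × Option ℕ) => q.2.1.1) :=
    Primrec.fst.comp (Primrec.fst.comp Primrec.snd)
  have hs2 : Primrec (fun q : ℕ × (List ℕ × ℕ) × (ℕ × Option ℕ) => q.2.1.2) :=
    Primrec.snd.comp (Primrec.fst.comp Primrec.snd)
  have ha : Primrec (fun q : ℕ × (List ℕ × ℕ) × (ℕ × Option ℕ) => q.2.2.1) :=
    Primrec.fst.comp (Primrec.snd.comp Primrec.snd)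
  have hr : Primrec (fun q : ℕ × (List ℕ × ℕ) × (ℕ × Option ℕ) => q.2.2.2) :=
    Primrec.snd.comp (Primrec.snd.comp Primrec.snd)
  have hl : Primrec (fun q : ℕ × (List ℕ × ℕ) × (ℕ × Option ℕ) => q.2.2.1 :: q.2.1.1) :=
    Primrec.list_cons.comp ha hs1
  have hnone : Primrec (fun q : ℕ × (List ℕ × ℕ) × (ℕ × Option ℕ) =>
      ((q.2.2.1 :: q.2.1.1, q.2.1.2) : List ℕ × ℕ)) := Primrec.pair hl hs2
  have hmem : PrimrecPred (fun q : (ℕ × (List ℕ × ℕ) × (ℕ × Option ℕ)) × ℕ =>
      q.1.1 ∈ q.1.2.2.1 :: q.1.2.1.1) := pr_mem (hl.comp Primrec.fst) (hx.comp Primrec.fst)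
  have hsome : Primrec₂ (fun (q : ℕ × (List ℕ × ℕ) × (ℕ × Option ℕ)) (e : ℕ) =>
      (([], if q.1 ∈ q.2.2.1 :: q.2.1.1 then e else min q.2.1.2 e) : List ℕ × ℕ)) := by
    refine Primrec.pair (Primrec.const _) ?_
    refine Primrec.ite hmem Primrec.snd ?_
    exact Primrec.nat_min.comp (hs2.comp Primrec.fst) Primrec.snd
  refine (Primrec.option_casesOn hr hnone hsome).of_eq ?_
  rintro ⟨x, s, a, r⟩
  cases r <;> rfl

theorem prim_uz : Primrec₂ uz := by
  have h := Primrec.list_foldl (f := fun p : Hist × ℕ => p.1)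
    (g := fun _ : Hist × ℕ => (([], 0) : List ℕ × ℕ))
    (h := fun (p : Hist × ℕ) (q : (List ℕ × ℕ) × (ℕ × Option ℕ)) => ustep p.2 q.1 q.2)
    Primrec.fst (Primrec.const _)
    (prim_ustep.comp (Primrec.snd.comp Primrec.fst) Primrec.snd)
  exact h

theorem prim_zOf : Primrec₂ zOf := Primrec.snd.comp prim_uz
theorem prim_Ulist : Primrec Ulist := Primrec.fst.comp (prim_uz.comp Primrec.id (Primrec.const 0))
theorem prim_Mlist : Primrec Mlist := by
  have h : Primrec₂ (fun (_ : Hist) (p : ℕ × Option ℕ) => p.2) := Primrec.snd.comp Primrec.snd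
  exact Primrec.listFilterMap Primrec.id h

section sig

variable {σ : Type*} [Primcodable σ] {h : σ → Hist} {x n : σ → ℕ}

theorem prim_zOf' (hh : Primrec h) (hx : Primrec x) : Primrec (fun s => zOf (h s) (x s)) :=
  prim_zOf.comp hh hx

theorem prim_LC' (hx : Primrec x) : Primrec (fun s => LC (x s)) := prim_LC.comp hx

theorem pr_vis {d : σ → Dt} (hh : Primrec h) (hx : Primrec x) (hn : Primrec n) :
    PrimrecPred (fun s => vis (stOf (h s) (d s)) (n s) (x s)) := by
  have h1 : PrimrecPred (fun s => x s < n s ∧ (x s ∈ Ulist (h s) ∨ n s ≤ zOf (h s) (x s))) :=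
    (pr_lt hx hn).and ((pr_mem (prim_Ulist.comp hh) hx).or (pr_le hn (prim_zOf' hh hx)))
  refine h1.of_eq ?_
  intro s
  unfold vis
  simp [stOf]

theorem prim_cntv {d : σ → Dt} (hh : Primrec h) (hd : Primrec d) (hn : Primrec n) :
    Primrec (fun s => cntv (stOf (h s) (d s)) (n s)) := by
  have h1 : PrimrecPred (fun p : σ × ℕ => vis (stOf (h p.1) (d p.1)) (n p.1) p.2) :=
    pr_vis (hh.comp Primrec.fst) Primrec.snd (hn.comp Primrec.fst)
  have h2 : Primrec₂ (fun (s : σ) (k : ℕ) => decide (vis (stOf (h s) (d s)) (n s) k)) :=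
    h1.decide
  refine (prim_ncount hn h2).of_eq ?_
  intro s
  rw [ncount_eq]
  unfold cntv
  congr 1
  ext y
  simp

end sig

end Pool.Agent.Helper542.RK
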