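import Pool.Agent.Helper923.RK.PrimA

set_option autoImplicit false

namespace Pool.Agent.Helper542.RK

open Finset Pool.Agent.Helper205.QA

/-- tables of the potentials and sensitivities, by primitive recursive functions -/
structure Tab where
  Ph : ℕ → Hist → Dt → ℕ → ℕ → Qc
  Sc : ℕ → Hist → Dt → ℕ → ℕ → Qc
  Fc : ℕ → Hist → Dt → ℕ → ℕ → Qc
  Pc : ℕ → Hist → Dt → ℕ → ℕ → Qc
  ph : ℕ → Qc
  prim_Ph : Primrec (fun p : (ℕ × Hist × Dt) × ℕ × ℕ => Ph p.1.1 p.1.2.1 p.1.2.2 p.2.1 p.2.2)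
  prim_Sc : Primrec (fun p : (ℕ × Hist × Dt) × ℕ × ℕ => Sc p.1.1 p.1.2.1 p.1.2.2 p.2.1 p.2.2)
  prim_Fc : Primrec (fun p : (ℕ × Hist × Dt) × ℕ × ℕ => Fc p.1.1 p.1.2.1 p.1.2.2 p.2.1 p.2.2)
  prim_Pc : Primrec (fun p : (ℕ × Hist × Dt) × ℕ × ℕ => Pc p.1.1 p.1.2.1 p.1.2.2 p.2.1 p.2.2)
  prim_ph : Primrec ph
  val_Ph : ∀ T h d, qv (Ph T h d T 0) = Phi P0 (stOf h d) T 0
  val_S : ∀ T h d i x, i ≤ T → x < LC T → qv (Sc T h d i x) = S P0 (stOf h d) i x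
  val_F : ∀ T h d i q, i < T → q * LC i < LC T → qv (Fc T h d i q) = F P0 (stOf h d) i q
  val_P : ∀ T h d j x, j ≤ T → x < LC T → qv (Pc T h d j x) = Pi' P0 (stOf h d) j T x
  val_ph : ∀ T, qv (ph T) = phC T

/-- codes of the amounts -/
def alQ (d : Dt) (x : ℕ) : Qc := ((d.1.getD x (0, 0)).1, 0, (d.1.getD x (0, 0)).2)

theorem qv_alQ (d : Dt) (x : ℕ) : qv (alQ d x) = alOf d.1 x := by
  unfold qv alQ alOf
  simp

def epsQ (j : ℕ) : Qc := (1, 0, KC * 2 ^ (j + 10) - 1)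

theorem qv_epsQ (j : ℕ) : qv (epsQ j) = epsC j := by
  unfold qv epsQ epsC
  have h1 : 1 ≤ KC * 2 ^ (j + 10) := by
    have : 0 < KC := by simp [KC, L0C]
    exact Nat.succ_le_of_lt (by positivity)
  simp only
  rw [Nat.cast_sub h1]
  push_cast
  ring

theorem qv_G2 : qv (qnat 942080) = G2C := by rw [qv_nat, G2C_q]; norm_num

abbrev Sg := ℕ × Hist × Dt

section prim

variable {σ : Type*} [Primcodable σ]

theorem prim_alQ {d : σ → Dt} {x : σ → ℕ} (hd : Primrec d) (hx : Primrec x) :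
    Primrec (fun s => alQ (d s) (x s)) := by
  have h1 : Primrec (fun s => (d s).1.getD (x s) (0, 0)) :=
    (Primrec.list_getD (0, 0)).comp (Primrec.fst.comp hd) hx
  exact prim_mk (Primrec.fst.comp h1) (Primrec.const 0) (Primrec.snd.comp h1)

theorem prim_epsQ {j : σ → ℕ} (hj : Primrec j) : Primrec (fun s => epsQ (j s)) :=
  prim_mk (Primrec.const 1) (Primrec.const 0)
    (prim_sub (prim_mul (Primrec.const KC) (prim_npow (Primrec.const 2)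
      (prim_add hj (Primrec.const 10)))) (Primrec.const 1))

variable (t : Tab) {g : σ → Sg} {i x : σ → ℕ}

theorem Tab.pS (hg : Primrec g) (hi : Primrec i) (hx : Primrec x) :
    Primrec (fun s => t.Sc (g s).1 (g s).2.1 (g s).2.2 (i s) (x s)) :=
  t.prim_Sc.comp (Primrec.pair hg (Primrec.pair hi hx))
theorem Tab.pF (hg : Primrec g) (hi : Primrec i) (hx : Primrec x) :
    Primrec (fun s => t.Fc (g s).1 (g s).2.1 (g s).2.2 (i s) (x s)) :=
  t.prim_Fc.comp (Primrec.pair hg (Primrec.pair hi hx))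
theorem Tab.pP (hg : Primrec g) (hi : Primrec i) (hx : Primrec x) :
    Primrec (fun s => t.Pc (g s).1 (g s).2.1 (g s).2.2 (i s) (x s)) :=
  t.prim_Pc.comp (Primrec.pair hg (Primrec.pair hi hx))
theorem Tab.pPh (hg : Primrec g) (hi : Primrec i) (hx : Primrec x) :
    Primrec (fun s => t.Ph (g s).1 (g s).2.1 (g s).2.2 (i s) (x s)) :=
  t.prim_Ph.comp (Primrec.pair hg (Primrec.pair hi hx))

end prim

/-- the bounded form of the invariant, on codes -/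
structure InvQ (t : Tab) (T : ℕ) (h : Hist) (d : Dt) : Prop where
  Uz : ∀ x ∈ Ulist h, zOf h x = 0
  al1 : ∀ x < d.1.length, qle (qmul (qnat 16) (alQ d x)) (qnat 1)
  alz : ∀ x < d.1.length, zOf h x = 0 → qle (alQ d x) (qnat 0)
  al2 : ∀ x < d.1.length, x / LC 0 < zOf h x / LC 0 →
    qle (qmul (qnat 942080) (alQ d x)) (qnat 1)
  J1p : ∀ p < LC T, ∀ j < T, 1 ≤ j → p / LC j < zOf h p / LC j →
    qle (qmul (alQ d p) (t.Sc T h d (j+1) p)) (qmul (epsQ j) (t.Fc T h d j (p / LC j)))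
  JZ : ∀ t ∈ d.2, 0 < t.1 →
    ((t.2.1 * LC t.1 ≤ t.2.2 + ZC (t.1 - 1) * LC (t.1 - 1) ∧ t.2.2 < t.2.1 * LC t.1) ∨
     ((t.2.1 + 1) * LC t.1 ≤ t.2.2 ∧
      t.2.2 < (t.2.1+1) * LC t.1 + ZC (t.1 - 1) * LC (t.1 - 1))) ∧
    0 < zOf h t.2.2 ∧ zOf h t.2.2 < (t.2.1+1) * LC t.1
  cnt : ∀ n < LC T + 1, cntv (stOf h d) n < KC
  M_lt : ∀ x ∈ Mlist h, x < LC T
  U_lt : ∀ x ∈ Ulist h, x < LC T
  z_lt : ∀ x ∈ h.map Prod.fst, zOf h x < LC T
  x_lt : ∀ x ∈ h.map Prod.fst, 0 < zOf h x → x < LC T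
  J2 : ∀ p < LC T, ∀ l < LC T, p / LC 0 ≤ l / LC 0 → l / LC 0 < zOf h p / LC 0 →
    qle (qmul (qmul (qnat 942080) (alQ d p)) (t.Sc T h d T p)) (t.Sc T h d T l)
  J1z : ∀ p < LC T, ∀ j < T, 1 ≤ j → p / LC j < zOf h p / LC j → zOf h p < LC T →
    qle (qmul (alQ d p) (t.Sc T h d T p))
      (qmul (epsQ j) (qmul (t.Fc T h d j (zOf h p / LC j)) (t.Pc T h d (j+1) (zOf h p))))
  pot : qle (t.Ph T h d T 0) (t.ph T)

theorem invQ_iff (t : Tab) (T : ℕ) (h : Hist) (d : Dt) : InvQ t T h d ↔ InvBd T h d := by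
  have zlt : (∀ x ∈ h.map Prod.fst, zOf h x < LC T) → ∀ x, zOf h x < LC T := by
    intro hz x
    rcases Nat.eq_zero_or_pos (zOf h x) with h0 | h0
    · rw [h0]; exact LC_pos T
    · exact hz x (zOf_mem' h0)
  have hdl : ∀ p j : ℕ, p < LC T → p / LC j * LC j < LC T := fun p j hp =>
    lt_of_le_of_lt (Nat.div_mul_le_self _ _) hp
  have e1 : ∀ x, qle (qmul (qnat 16) (alQ d x)) (qnat 1) ↔ alOf d.1 x ≤ 1 / 16 := by
    intro x
    rw [qle_iff, qv_mul, qv_nat, qv_nat, qv_alQ]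
    push_cast
    constructor <;> intro h1 <;> linarith
  have e2 : ∀ x, qle (alQ d x) (qnat 0) ↔ alOf d.1 x ≤ 0 := by
    intro x
    rw [qle_iff, qv_nat, qv_alQ]
    push_cast
    rfl
  have e3 : ∀ x, qle (qmul (qnat 942080) (alQ d x)) (qnat 1) ↔ G2C * alOf d.1 x ≤ 1 := by
    intro x
    rw [qle_iff, qv_mul, qv_G2, qv_nat, qv_alQ]
    push_cast
    rfl
  have e4 : ∀ p j, p < LC T → j < T →
      (qle (qmul (alQ d p) (t.Sc T h d (j+1) p)) (qmul (epsQ j) (t.Fc T h d j (p / LC j))) ↔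
      alOf d.1 p * S P0 (stOf h d) (j+1) p ≤ epsC j * F P0 (stOf h d) j (p / LC j)) := by
    intro p j hp hj
    rw [qle_iff, qv_mul, qv_mul, qv_alQ, qv_epsQ, t.val_S T h d (j+1) p hj hp,
      t.val_F T h d j _ hj (hdl p j hp)]
  have e5 : ∀ p l, p < LC T → l < LC T →
      (qle (qmul (qmul (qnat 942080) (alQ d p)) (t.Sc T h d T p)) (t.Sc T h d T l) ↔
      G2C * alOf d.1 p * S P0 (stOf h d) T p ≤ S P0 (stOf h d) T l) := by
    intro p l hp hl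
    rw [qle_iff, qv_mul, qv_mul, qv_G2, qv_alQ, t.val_S T h d T p le_rfl hp,
      t.val_S T h d T l le_rfl hl]
  have e6 : ∀ p j, p < LC T → j < T → zOf h p < LC T →
      (qle (qmul (alQ d p) (t.Sc T h d T p))
        (qmul (epsQ j) (qmul (t.Fc T h d j (zOf h p / LC j)) (t.Pc T h d (j+1) (zOf h p)))) ↔
      alOf d.1 p * S P0 (stOf h d) T p ≤
        epsC j * (F P0 (stOf h d) j (zOf h p / LC j) * Pi' P0 (stOf h d) (j+1) T (zOf h p))) := by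
    intro p j hp hj hz
    rw [qle_iff, qv_mul, qv_mul, qv_mul, qv_alQ, qv_epsQ, t.val_S T h d T p le_rfl hp,
      t.val_F T h d j _ hj (hdl _ j hz), t.val_P T h d (j+1) _ hj hz]
  have e7 : qle (t.Ph T h d T 0) (t.ph T) ↔ Phi P0 (stOf h d) T 0 ≤ phC T := by
    rw [qle_iff, t.val_Ph, t.val_ph]
  have e8 : ∀ tr : ℕ × ℕ × ℕ, 0 < tr.1 →
      (((tr.2.1 * LC tr.1 ≤ tr.2.2 + ZC (tr.1 - 1) * LC (tr.1 - 1) ∧ tr.2.2 < tr.2.1 * LC tr.1) ∨
       ((tr.2.1 + 1) * LC tr.1 ≤ tr.2.2 ∧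
        tr.2.2 < (tr.2.1+1) * LC tr.1 + ZC (tr.1 - 1) * LC (tr.1 - 1))) ↔
      inZone P0 (tr.1 - 1) tr.2.1 tr.2.2) := by
    rintro ⟨i', q, x⟩ hi
    simp only at hi ⊢
    obtain ⟨i, rfl⟩ : ∃ i, i' = i + 1 := ⟨i' - 1, by omega⟩
    rfl
  constructor
  · intro H
    refine ⟨H.Uz, fun x hx => (e1 x).1 (H.al1 x hx), fun x hx hz => (e2 x).1 (H.alz x hx hz),
      fun x hx hz => (e3 x).1 (H.al2 x hx hz), fun p hp j hj h1 h2 => (e4 p j hp hj).1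
      (H.J1p p hp j hj h1 h2), ?_, H.cnt, H.M_lt, H.U_lt, H.z_lt, H.x_lt,
      fun p hp l hl h1 h2 => (e5 p l hp hl).1 (H.J2 p hp l hl h1 h2),
      fun p hp j hj h1 h2 => (e6 p j hp hj (zlt H.z_lt p)).1 (H.J1z p hp j hj h1 h2
        (zlt H.z_lt p)), e7.1 H.pot⟩
    intro tr htr h0
    have := H.JZ tr htr h0
    exact ⟨(e8 tr h0).1 this.1, this.2⟩
  · intro H
    refine ⟨H.Uz, fun x hx => (e1 x).2 (H.al1 x hx), fun x hx hz => (e2 x).2 (H.alz x hx hz),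
      fun x hx hz => (e3 x).2 (H.al2 x hx hz), fun p hp j hj h1 h2 => (e4 p j hp hj).2
      (H.J1p p hp j hj h1 h2), ?_, H.cnt, H.M_lt, H.U_lt, H.z_lt, H.x_lt,
      fun p hp l hl h1 h2 => (e5 p l hp hl).2 (H.J2 p hp l hl h1 h2),
      fun p hp j hj h1 h2 h3 => (e6 p j hp hj h3).2 (H.J1z p hp j hj h1 h2), e7.2 H.pot⟩
    intro tr htr h0
    have := H.JZ tr htr h0
    exact ⟨(e8 tr h0).2 this.1, this.2⟩

theorem prim_InvQ (t : Tab) : PrimrecPred (fun s : Sg => InvQ t s.1 s.2.1 s.2.2) := by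
  have hT : Primrec (fun s : Sg => s.1) := Primrec.fst
  have hh : Primrec (fun s : Sg => s.2.1) := Primrec.fst.comp Primrec.snd
  have hd : Primrec (fun s : Sg => s.2.2) := Primrec.snd.comp Primrec.snd
  have hLT : Primrec (fun s : Sg => LC s.1) := prim_LC' hT
  have hlen : Primrec (fun s : Sg => s.2.2.1.length) :=
    Primrec.list_length.comp (Primrec.fst.comp hd)
  -- one variable
  have g1 : Primrec (fun s : Sg × ℕ => s.1) := Primrec.fst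
  have x1 : Primrec (fun s : Sg × ℕ => s.2) := Primrec.snd
  have h1 : Primrec (fun s : Sg × ℕ => s.1.2.1) := hh.comp g1
  have d1 : Primrec (fun s : Sg × ℕ => s.1.2.2) := hd.comp g1
  have z1 : Primrec (fun s : Sg × ℕ => zOf s.1.2.1 s.2) := prim_zOf' h1 x1
  have L0c : Primrec (fun s : Sg × ℕ => LC 0) := Primrec.const _
  have hmap : Primrec (fun s : Sg => s.2.1.map Prod.fst) := by
    have : Primrec₂ (fun (_ : Sg) (p : ℕ × Option ℕ) => p.1) := Primrec.fst.comp Primrec.snd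
    exact Primrec.list_map hh this
  have p1 : PrimrecPred (fun s : Sg => ∀ x ∈ Ulist s.2.1, zOf s.2.1 x = 0) :=
    pr_forall_mem (prim_Ulist.comp hh) (pr_eq z1 (Primrec.const 0))
  have p2 : PrimrecPred (fun s : Sg => ∀ x < s.2.2.1.length,
      qle (qmul (qnat 16) (alQ s.2.2 x)) (qnat 1)) :=
    pr_forall_lt hlen (prim_qle (prim_qmul (Primrec.const _) (prim_alQ d1 x1)) (Primrec.const _))
  have p3 : PrimrecPred (fun s : Sg => ∀ x < s.2.2.1.length, zOf s.2.1 x = 0 →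
      qle (alQ s.2.2 x) (qnat 0)) :=
    pr_forall_lt hlen (pr_imp (pr_eq z1 (Primrec.const 0))
      (prim_qle (prim_alQ d1 x1) (Primrec.const _)))
  have p4 : PrimrecPred (fun s : Sg => ∀ x < s.2.2.1.length,
      x / LC 0 < zOf s.2.1 x / LC 0 → qle (qmul (qnat 942080) (alQ s.2.2 x)) (qnat 1)) :=
    pr_forall_lt hlen (pr_imp (pr_lt (prim_div x1 L0c) (prim_div z1 L0c))
      (prim_qle (prim_qmul (Primrec.const _) (prim_alQ d1 x1)) (Primrec.const _)))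
  -- two variables
  have g2 : Primrec (fun s : (Sg × ℕ) × ℕ => s.1.1) := Primrec.fst.comp Primrec.fst
  have a2 : Primrec (fun s : (Sg × ℕ) × ℕ => s.1.2) := Primrec.snd.comp Primrec.fst
  have b2 : Primrec (fun s : (Sg × ℕ) × ℕ => s.2) := Primrec.snd
  have T2 : Primrec (fun s : (Sg × ℕ) × ℕ => s.1.1.1) := hT.comp g2
  have h2 : Primrec (fun s : (Sg × ℕ) × ℕ => s.1.1.2.1) := hh.comp g2
  have d2 : Primrec (fun s : (Sg × ℕ) × ℕ => s.1.1.2.2) := hd.comp g2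
  have z2 : Primrec (fun s : (Sg × ℕ) × ℕ => zOf s.1.1.2.1 s.1.2) := prim_zOf' h2 a2
  have Lb : Primrec (fun s : (Sg × ℕ) × ℕ => LC s.2) := prim_LC' b2
  have L02 : Primrec (fun s : (Sg × ℕ) × ℕ => LC 0) := Primrec.const _
  have p5 : PrimrecPred (fun s : Sg => ∀ p < LC s.1, ∀ j < s.1, 1 ≤ j →
      p / LC j < zOf s.2.1 p / LC j →
      qle (qmul (alQ s.2.2 p) (t.Sc s.1 s.2.1 s.2.2 (j+1) p))
        (qmul (epsQ j) (t.Fc s.1 s.2.1 s.2.2 j (p / LC j)))) := by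
    refine pr_forall_lt hLT (pr_forall_lt (hT.comp g1) (pr_imp (pr_le (Primrec.const 1) b2)
      (pr_imp (pr_lt (prim_div a2 Lb) (prim_div z2 Lb)) ?_)))
    exact prim_qle (prim_qmul (prim_alQ d2 a2) (t.pS g2 (prim_succ b2) a2))
      (prim_qmul (prim_epsQ b2) (t.pF g2 b2 (prim_div a2 Lb)))
  have p6 : PrimrecPred (fun s : Sg => ∀ tr ∈ s.2.2.2, 0 < tr.1 →
      ((tr.2.1 * LC tr.1 ≤ tr.2.2 + ZC (tr.1 - 1) * LC (tr.1 - 1) ∧ tr.2.2 < tr.2.1 * LC tr.1) ∨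
       ((tr.2.1 + 1) * LC tr.1 ≤ tr.2.2 ∧
        tr.2.2 < (tr.2.1+1) * LC tr.1 + ZC (tr.1 - 1) * LC (tr.1 - 1))) ∧
      0 < zOf s.2.1 tr.2.2 ∧ zOf s.2.1 tr.2.2 < (tr.2.1+1) * LC tr.1) := by
    have t1 : Primrec (fun s : Sg × (ℕ × ℕ × ℕ) => s.2.1) := Primrec.fst.comp Primrec.snd
    have t2 : Primrec (fun s : Sg × (ℕ × ℕ × ℕ) => s.2.2.1) :=
      Primrec.fst.comp (Primrec.snd.comp Primrec.snd)
    have t3 : Primrec (fun s : Sg × (ℕ × ℕ × ℕ) => s.2.2.2) :=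
      Primrec.snd.comp (Primrec.snd.comp Primrec.snd)
    have th : Primrec (fun s : Sg × (ℕ × ℕ × ℕ) => s.1.2.1) := hh.comp Primrec.fst
    have tz : Primrec (fun s : Sg × (ℕ × ℕ × ℕ) => zOf s.1.2.1 s.2.2.2) := prim_zOf' th t3
    have tL : Primrec (fun s : Sg × (ℕ × ℕ × ℕ) => LC s.2.1) := prim_LC' t1
    have t1' : Primrec (fun s : Sg × (ℕ × ℕ × ℕ) => s.2.1 - 1) := prim_sub t1 (Primrec.const 1)
    have tZL : Primrec (fun s : Sg × (ℕ × ℕ × ℕ) => ZC (s.2.1 - 1) * LC (s.2.1 - 1)) :=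
      prim_mul (prim_ZC.comp t1') (prim_LC' t1')
    have tq : Primrec (fun s : Sg × (ℕ × ℕ × ℕ) => s.2.2.1 * LC s.2.1) := prim_mul t2 tL
    have tq' : Primrec (fun s : Sg × (ℕ × ℕ × ℕ) => (s.2.2.1 + 1) * LC s.2.1) :=
      prim_mul (prim_succ t2) tL
    refine pr_forall_mem (Primrec.snd.comp hd) (pr_imp (pr_lt (Primrec.const 0) t1) ?_)
    refine PrimrecPred.and (PrimrecPred.or (PrimrecPred.and ?_ ?_) (PrimrecPred.and ?_ ?_))
      (PrimrecPred.and ?_ ?_)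
    · exact pr_le tq (prim_add t3 tZL)
    · exact pr_lt t3 tq
    · exact pr_le tq' t3
    · exact pr_lt t3 (prim_add tq' tZL)
    · exact pr_lt (Primrec.const 0) tz
    · exact pr_lt tz tq'
  have p7 : PrimrecPred (fun s : Sg => ∀ n < LC s.1 + 1, cntv (stOf s.2.1 s.2.2) n < KC) :=
    pr_forall_lt (prim_succ hLT) (pr_lt (prim_cntv h1 d1 x1) (Primrec.const _))
  have L1 : Primrec (fun s : Sg × ℕ => LC s.1.1) := hLT.comp g1
  have p8 : PrimrecPred (fun s : Sg => ∀ x ∈ Mlist s.2.1, x < LC s.1) :=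
    pr_forall_mem (prim_Mlist.comp hh) (pr_lt x1 L1)
  have p9 : PrimrecPred (fun s : Sg => ∀ x ∈ Ulist s.2.1, x < LC s.1) :=
    pr_forall_mem (prim_Ulist.comp hh) (pr_lt x1 L1)
  have p10 : PrimrecPred (fun s : Sg => ∀ x ∈ s.2.1.map Prod.fst, zOf s.2.1 x < LC s.1) :=
    pr_forall_mem hmap (pr_lt z1 L1)
  have p11 : PrimrecPred (fun s : Sg => ∀ x ∈ s.2.1.map Prod.fst, 0 < zOf s.2.1 x →
      x < LC s.1) :=
    pr_forall_mem hmap (pr_imp (pr_lt (Primrec.const 0) z1) (pr_lt x1 L1))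
  have p12 : PrimrecPred (fun s : Sg => ∀ p < LC s.1, ∀ l < LC s.1, p / LC 0 ≤ l / LC 0 →
      l / LC 0 < zOf s.2.1 p / LC 0 →
      qle (qmul (qmul (qnat 942080) (alQ s.2.2 p)) (t.Sc s.1 s.2.1 s.2.2 s.1 p))
        (t.Sc s.1 s.2.1 s.2.2 s.1 l)) := by
    refine pr_forall_lt hLT (pr_forall_lt L1 (pr_imp (pr_le (prim_div a2 L02) (prim_div b2 L02))
      (pr_imp (pr_lt (prim_div b2 L02) (prim_div z2 L02)) ?_)))
    exact prim_qle (prim_qmul (prim_qmul (Primrec.const _) (prim_alQ d2 a2)) (t.pS g2 T2 a2))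
      (t.pS g2 T2 b2)
  have p13 : PrimrecPred (fun s : Sg => ∀ p < LC s.1, ∀ j < s.1, 1 ≤ j →
      p / LC j < zOf s.2.1 p / LC j → zOf s.2.1 p < LC s.1 →
      qle (qmul (alQ s.2.2 p) (t.Sc s.1 s.2.1 s.2.2 s.1 p))
        (qmul (epsQ j) (qmul (t.Fc s.1 s.2.1 s.2.2 j (zOf s.2.1 p / LC j))
          (t.Pc s.1 s.2.1 s.2.2 (j+1) (zOf s.2.1 p))))) := by
    refine pr_forall_lt hLT (pr_forall_lt (hT.comp g1) (pr_imp (pr_le (Primrec.const 1) b2)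
      (pr_imp (pr_lt (prim_div a2 Lb) (prim_div z2 Lb)) (pr_imp (pr_lt z2 (hLT.comp g2)) ?_))))
    exact prim_qle (prim_qmul (prim_alQ d2 a2) (t.pS g2 T2 a2))
      (prim_qmul (prim_epsQ b2) (prim_qmul (t.pF g2 b2 (prim_div z2 Lb))
        (t.pP g2 (prim_succ b2) z2)))
  have p14 : PrimrecPred (fun s : Sg => qle (t.Ph s.1 s.2.1 s.2.2 s.1 0) (t.ph s.1)) :=
    prim_qle (t.pPh Primrec.id hT (Primrec.const 0)) (t.prim_ph.comp hT)
  refine (p1.and (p2.and (p3.and (p4.and (p5.and (p6.and (p7.and (p8.and (p9.and (p10.and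
    (p11.and (p12.and (p13.and p14))))))))))))).of_eq ?_
  intro s
  constructor
  · rintro ⟨q1, q2, q3, q4, q5, q6, q7, q8, q9, q10, q11, q12, q13, q14⟩
    exact ⟨q1, q2, q3, q4, q5, q6, q7, q8, q9, q10, q11, q12, q13, q14⟩
  · rintro ⟨q1, q2, q3, q4, q5, q6, q7, q8, q9, q10, q11, q12, q13, q14⟩
    exact ⟨q1, q2, q3, q4, q5, q6, q7, q8, q9, q10, q11, q12, q13, q14⟩

theorem prim_InvBd (t : Tab) : PrimrecPred (fun s : Sg => InvBd s.1 s.2.1 s.2.2) :=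
  (prim_InvQ t).of_eq fun s => invQ_iff t s.1 s.2.1 s.2.2

/-- existential quantifier -/
theorem re_exists {α : Type*} [Primcodable α] {R : α → ℕ → Prop}
    (hR : PrimrecPred (fun p : α × ℕ => R p.1 p.2)) : REPred (fun a => ∃ n, R a n) := by
  classical
  have h1 : Computable₂ (fun (a : α) (n : ℕ) => decide (R a n)) := hR.decide.to_comp
  have h2 : Partrec (fun a : α => Nat.rfind ((fun n => Part.some (decide (R a n))) : ℕ →. Bool)) :=
    Partrec.rfind h1.partrec₂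
  refine h2.dom_re.of_eq ?_
  intro a
  constructor
  · intro hd
    obtain ⟨n, h3, _⟩ := Nat.rfind_dom.1 hd
    refine ⟨n, ?_⟩
    have h4 : true = decide (R a n) := Part.mem_some_iff.1 h3
    exact of_decide_eq_true h4.symm
  · rintro ⟨n, h3⟩
    refine Nat.rfind_dom.2 ⟨n, ?_, fun _ => trivial⟩
    exact Part.mem_some_iff.2 (decide_eq_true h3).symm

theorem re_Good (t : Tab) : REPred (fun p : Hist × Dt => Good P0 p.1 p.2) := by
  have h1 : PrimrecPred (fun p : (Hist × Dt) × ℕ => InvBd p.2 p.1.1 p.1.2) :=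
    (prim_InvBd t).comp (Primrec.pair Primrec.snd Primrec.fst)
  refine (re_exists (R := fun p n => InvBd n p.1 p.2) h1).of_eq ?_
  intro p
  exact (good_iff p.1 p.2).symm

theorem re_Rmove (t : Tab)
    (hL : PrimrecPred (fun p : Hist × ℕ × Option ℕ => Legal p.1 p.2.1 p.2.2)) :
    REPred (fun p : Hist × Dt × ℕ × Option ℕ × Dt =>
      Rmove P0 p.1 p.2.1 p.2.2.1 p.2.2.2.1 p.2.2.2.2) := by
  have eh : Primrec (fun p : (Hist × Dt × ℕ × Option ℕ × Dt) × ℕ => p.1.1) :=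
    Primrec.fst.comp Primrec.fst
  have e2 : Primrec (fun p : (Hist × Dt × ℕ × Option ℕ × Dt) × ℕ => p.1.2.2) :=
    Primrec.snd.comp (Primrec.snd.comp Primrec.fst)
  have ea : Primrec (fun p : (Hist × Dt × ℕ × Option ℕ × Dt) × ℕ => p.1.2.2.1) :=
    Primrec.fst.comp e2
  have er : Primrec (fun p : (Hist × Dt × ℕ × Option ℕ × Dt) × ℕ => p.1.2.2.2.1) :=
    Primrec.fst.comp (Primrec.snd.comp e2)
  have ed : Primrec (fun p : (Hist × Dt × ℕ × Option ℕ × Dt) × ℕ => p.1.2.2.2.2) :=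
    Primrec.snd.comp (Primrec.snd.comp e2)
  have eh' : Primrec (fun p : (Hist × Dt × ℕ × Option ℕ × Dt) × ℕ =>
      (p.1.1 ++ [(p.1.2.2.1, p.1.2.2.2.1)] : Hist)) :=
    Primrec.list_append.comp eh
      (Primrec.list_cons.comp (Primrec.pair ea er) (Primrec.const []))
  have h1 : PrimrecPred (fun p : (Hist × Dt × ℕ × Option ℕ × Dt) × ℕ =>
      InvBd p.2 (p.1.1 ++ [(p.1.2.2.1, p.1.2.2.2.1)]) p.1.2.2.2.2 ∧
        Legal p.1.1 p.1.2.2.1 p.1.2.2.2.1) :=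
    ((prim_InvBd t).comp (Primrec.pair Primrec.snd (Primrec.pair eh' ed))).and
      (hL.comp (Primrec.pair eh (Primrec.pair ea er)))
  refine (re_exists (R := fun p n => InvBd n (p.1 ++ [(p.2.2.1, p.2.2.2.1)]) p.2.2.2.2 ∧
        Legal p.1 p.2.2.1 p.2.2.2.1) h1).of_eq ?_
  intro p
  unfold Rmove
  rw [good_iff]
  constructor
  · rintro ⟨n, h2, h3⟩; exact ⟨⟨n, h2⟩, h3⟩
  · rintro ⟨⟨n, h2⟩, h3⟩; exact ⟨n, h2, h3⟩

end Pool.Agent.Helper542.RK
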