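import Pool.Agent.Helper923.RK.PrimB
import Pool.Agent.Helper205.RK.Table
import Pool.Agent.Helper880.RK.Prim

set_option autoImplicit false

namespace Pool.Agent.Helper542.RK

theorem isC_P0 : Pool.Agent.Helper205.QA.IsC P0 := by
  constructor <;> rfl

/-- the tables -/
def tab0 : Tab where
  Ph := Pool.Agent.Helper205.QA.PhiC
  Sc := Pool.Agent.Helper205.QA.SC
  Fc := Pool.Agent.Helper205.QA.FC
  Pc := Pool.Agent.Helper205.QA.PiC
  ph := Pool.Agent.Helper205.QA.phQ
  prim_Ph := Pool.Agent.Helper205.QA.prim_PhiC (Primrec.fst.comp Primrec.fst)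
    (Primrec.fst.comp (Primrec.snd.comp Primrec.fst))
    (Primrec.snd.comp (Primrec.snd.comp Primrec.fst)) (Primrec.fst.comp Primrec.snd)
    (Primrec.snd.comp Primrec.snd)
  prim_Sc := Pool.Agent.Helper205.QA.prim_SC (Primrec.fst.comp Primrec.fst)
    (Primrec.fst.comp (Primrec.snd.comp Primrec.fst))
    (Primrec.snd.comp (Primrec.snd.comp Primrec.fst)) (Primrec.fst.comp Primrec.snd)
    (Primrec.snd.comp Primrec.snd)
  prim_Fc := Pool.Agent.Helper205.QA.prim_FC (Primrec.fst.comp Primrec.fst)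
    (Primrec.fst.comp (Primrec.snd.comp Primrec.fst))
    (Primrec.snd.comp (Primrec.snd.comp Primrec.fst)) (Primrec.fst.comp Primrec.snd)
    (Primrec.snd.comp Primrec.snd)
  prim_Pc := Pool.Agent.Helper205.QA.prim_PiC (Primrec.fst.comp Primrec.fst)
    (Primrec.fst.comp (Primrec.snd.comp Primrec.fst))
    (Primrec.snd.comp (Primrec.snd.comp Primrec.fst)) (Primrec.fst.comp Primrec.snd)
    (Primrec.snd.comp Primrec.snd)
  prim_ph := Pool.Agent.Helper205.QA.prim_phQ Primrec.id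
  val_Ph := fun T h d => Pool.Agent.Helper205.QA.qv_Phi isC_P0 le_rfl
    (by rw [Nat.zero_mul]; exact LC_pos T)
  val_S := fun T h d i x hi hx => Pool.Agent.Helper205.QA.qv_S isC_P0 (Nat.le_succ_of_le hi) hx
  val_F := fun T h d i q hi hq => Pool.Agent.Helper205.QA.qv_F isC_P0 hi.le hq
  val_P := fun T h d j x _ hx => Pool.Agent.Helper205.QA.qv_Pi isC_P0 hx
  val_ph := Pool.Agent.Helper205.QA.qv_ph

theorem re_GoodP0 : REPred (fun p : Hist × Dt => Good P0 p.1 p.2) := re_Good tab0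

theorem re_RmoveP0 : REPred (fun p : Hist × Dt × ℕ × Option ℕ × Dt =>
    Rmove P0 p.1 p.2.1 p.2.2.1 p.2.2.2.1 p.2.2.2.2) :=
  re_Rmove tab0 Pool.Agent.Helper880.RK.prim_legal

end Pool.Agent.Helper542.RK
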